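import Mathlib

set_option autoImplicit false

namespace Pool.Agent.V11304.TB

open Finset

lemma split_oe {M : Type*} [AddCommMonoid M] (f : ℕ → M) (n : ℕ) :
    ∑ m ∈ range (2*n), f m = ∑ k ∈ range n, (f (2*k) + f (2*k+1)) := by
  induction n with
  | zero => simp
  | succ n ih =>
    rw [show 2*(n+1) = 2*n+1+1 by ring, sum_range_succ, sum_range_succ, ih, sum_range_succ, add_assoc]

def ee (R : ℕ) : ℤ := ∑ k ∈ range (R+1), ((2*R+1).choose (2*k) : ℤ) * (-3)^k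
def od' (R : ℕ) : ℤ := ∑ k ∈ range (R+1), ((2*R+1).choose (2*k+1) : ℤ) * (-3)^k

lemma zs (R : ℕ) : ((⟨1, 1⟩ : Zsqrtd (-3)))^(2*R+1) = ⟨ee R, od' R⟩ := by
  have h1 : (⟨1, 1⟩ : Zsqrtd (-3)) = Zsqrtd.sqrtd + 1 := by
    ext <;> simp
  rw [h1, add_pow, show 2*R+1+1 = 2*(R+1) by ring, split_oe]
  have hsq : (Zsqrtd.sqrtd : Zsqrtd (-3))^2 = ((-3:ℤ) : Zsqrtd (-3)) := by
    rw [pow_two, Zsqrtd.dmuld]
  have h2 : ∀ k ∈ range (R+1), ((Zsqrtd.sqrtd : Zsqrtd (-3))^(2*k) * 1^(2*R+1-2*k) * (((2*R+1).choose (2*k) : ℕ) : Zsqrtd (-3)) +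
      (Zsqrtd.sqrtd : Zsqrtd (-3))^(2*k+1) * 1^(2*R+1-(2*k+1)) * (((2*R+1).choose (2*k+1) : ℕ) : Zsqrtd (-3))) =
      ((((2*R+1).choose (2*k) : ℤ) * (-3)^k : ℤ) : Zsqrtd (-3)) +
      Zsqrtd.sqrtd * ((((2*R+1).choose (2*k+1) : ℤ) * (-3)^k : ℤ) : Zsqrtd (-3)) := by
    intro k _
    rw [one_pow, one_pow, pow_succ, pow_mul, hsq]
    push_cast
    ring
  rw [sum_congr rfl h2, sum_add_distrib, ← mul_sum, ← Int.cast_sum, ← Int.cast_sum]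
  change ((ee R : ℤ) : Zsqrtd (-3)) + Zsqrtd.sqrtd * ((od' R : ℤ) : Zsqrtd (-3)) = _
  generalize ee R = x
  generalize od' R = y
  ext <;> simp

lemma zs6 (m : ℕ) : ((⟨1, 1⟩ : Zsqrtd (-3)))^(6*m) = ⟨64^m, 0⟩ := by
  have h : ((⟨1, 1⟩ : Zsqrtd (-3)))^6 = ⟨64, 0⟩ := by
    ext <;> rfl
  rw [pow_mul, h]
  induction m with
  | zero => rfl
  | succ m ih => rw [pow_succ, ih, pow_succ]; ext <;> simp

lemma eo (R : ℕ) (hR : R % 3 ≠ 1) : ee R = 4^R ∧ od' R = (if R % 3 = 0 then 1 else -1) * 4^R := by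
  have h := zs R
  rcases (show R % 3 = 0 ∨ R % 3 = 2 by omega) with h0 | h0
  · obtain ⟨m, rfl⟩ : ∃ m, R = 3*m := ⟨R/3, by omega⟩
    rw [show 2*(3*m)+1 = 6*m+1 by ring, pow_succ, zs6] at h
    have e1 := congrArg Zsqrtd.re h
    have e2 := congrArg Zsqrtd.im h
    simp only [Zsqrtd.re_mul, Zsqrtd.im_mul, mul_one, mul_zero, zero_mul, add_zero] at e1 e2
    rw [if_pos h0, ← e1, ← e2, pow_mul]
    norm_num
  · obtain ⟨m, rfl⟩ : ∃ m, R = 3*m+2 := ⟨R/3, by omega⟩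
    rw [show 2*(3*m+2)+1 = 6*m+5 by ring, pow_add, zs6] at h
    have h5 : ((⟨1, 1⟩ : Zsqrtd (-3)))^5 = ⟨16, -16⟩ := by
      ext <;> rfl
    rw [h5] at h
    have e1 := congrArg Zsqrtd.re h
    have e2 := congrArg Zsqrtd.im h
    simp only [Zsqrtd.re_mul, Zsqrtd.im_mul, mul_zero, zero_mul, add_zero] at e1 e2
    rw [if_neg (by omega), ← e1, ← e2, pow_add, pow_mul]
    norm_num

/-- `E n x = ∑_{k ≤ n} C(2n+1,2k) x^k` -/
def E (n : ℕ) (x : ℚ) : ℚ := ∑ k ∈ range (n+1), (((2*n+1).choose (2*k) : ℕ) : ℚ) * x^k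

lemma E_m3 (R : ℕ) (hR : R % 3 ≠ 1) : E R (-3) = 4^R := by
  have h := (eo R hR).1
  have : E R (-3) = ((ee R : ℤ) : ℚ) := by
    unfold E ee
    push_cast
    rfl
  rw [this, h]; push_cast; ring

/-- the sign `(p/3)` for `p = 2R+1`. -/
def eps3 (R : ℕ) : ℚ := if R % 3 = 0 then 1 else -1

lemma eps3_sq (R : ℕ) : eps3 R * eps3 R = 1 := by unfold eps3; split_ifs <;> norm_num

lemma E_m13 (R : ℕ) (hR : R % 3 ≠ 1) : E R (-1/3) * (-3)^R = eps3 R * 4^R := by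
  have h := (eo R hR).2
  have : E R (-1/3) * (-3)^R = ((od' R : ℤ) : ℚ) := by
    unfold E od'
    rw [sum_mul, ← sum_range_reflect]
    push_cast
    apply sum_congr rfl
    intro k hk
    rw [mem_range] at hk
    have e2 : (2*R+1).choose (2*(R-k)) = (2*R+1).choose (2*k+1) := by
      rw [← Nat.choose_symm (show 2*k+1 ≤ 2*R+1 by omega)]
      congr 1; omega
    rw [e2]
    have e3 : (-3:ℚ)^R = (-3)^(R-k) * (-3)^k := by rw [← pow_add]; congr 1; omega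
    rw [e3]
    have e4 : (-1/3:ℚ)^(R-k) * (-3)^(R-k) = 1 := by rw [← mul_pow]; norm_num
    calc (((2*R+1).choose (2*k+1) : ℕ) : ℚ) * (-1/3:ℚ)^(R-k) * ((-3)^(R-k) * (-3)^k) =
        ((-1/3:ℚ)^(R-k) * (-3)^(R-k)) * ((((2*R+1).choose (2*k+1) : ℕ) : ℚ) * (-3)^k) := by ring
      _ = _ := by rw [e4, one_mul]
  rw [this, h]
  unfold eps3
  push_cast
  split_ifs <;> simp

/-- values at squares -/
lemma E_sq (n : ℕ) (y : ℚ) : 2 * E n (y^2) = (1+y)^(2*n+1) + (1-y)^(2*n+1) := by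
  have h1 : ∀ z : ℚ, (1+z)^(2*n+1) = ∑ k ∈ range (n+1),
      (z^(2*k) * (((2*n+1).choose (2*k) : ℕ) : ℚ) + z^(2*k+1) * (((2*n+1).choose (2*k+1) : ℕ) : ℚ)) := by
    intro z
    rw [add_comm, add_pow, show 2*n+1+1 = 2*(n+1) by ring, split_oe]
    apply sum_congr rfl
    intro k _
    rw [one_pow, one_pow]; ring
  have h2 := h1 y
  have h3 := h1 (-y)
  rw [← sub_eq_add_neg] at h3
  rw [h2, h3, ← sum_add_distrib]
  unfold E
  rw [mul_sum]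
  apply sum_congr rfl
  intro k _
  have e1 : (-y)^(2*k) = y^(2*k) := by rw [pow_mul, pow_mul, neg_sq]
  have e2 : (-y)^(2*k+1) = -(y^(2*k+1)) := by rw [pow_succ, e1]; ring
  have e3 : (y^2)^k = y^(2*k) := by rw [pow_mul]
  rw [e1, e2, e3]; ring

end Pool.Agent.V11304.TB
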