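import Pool.Agent.V11304.SC.Basic
import Pool.Agent.V11304.TB.Z3

set_option autoImplicit false

namespace Pool.Agent.V11304.TB

open Finset Pool.Agent.V11304.SC

/-! exact identities over `ℚ` -/

lemma chs (m k : ℕ) : ((k:ℚ)+1) * (m.choose (k+1) : ℕ) = ((m:ℚ) - k) * (m.choose k : ℕ) := by
  rcases le_or_gt k m with h | h
  · have e := Nat.choose_succ_right_eq m k
    have e2 : ((m.choose (k+1) : ℕ) : ℚ) * ((k:ℚ)+1) = (m.choose k : ℕ) * ((m:ℚ) - k) := by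
      rw [← Nat.cast_sub h]; exact_mod_cast e
    linarith
  · rw [Nat.choose_eq_zero_of_lt h, Nat.choose_eq_zero_of_lt (by omega)]; simp

lemma chp (m k : ℕ) : (((m+1).choose (k+1) : ℕ) : ℚ) = (m.choose k : ℕ) + (m.choose (k+1) : ℕ) := by
  rw [Nat.choose_succ_succ]; push_cast; ring

lemma cha (m k : ℕ) : ((k:ℚ)+1) * ((m+1).choose (k+1) : ℕ) = ((m:ℚ)+1) * (m.choose k : ℕ) := by
  have e := Nat.add_one_mul_choose_eq m k
  have e2 : ((m:ℚ)+1) * (m.choose k : ℕ) = ((m+1).choose (k+1) : ℕ) * ((k:ℚ)+1) := by exact_mod_cast e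
  linarith

/-- `(m+1) C(m,k) = (m+1-k) C(m+1,k)` -/
lemma chm (m k : ℕ) : ((m:ℚ)+1) * (m.choose k : ℕ) = ((m:ℚ) + 1 - k) * ((m+1).choose k : ℕ) := by
  cases k with
  | zero => simp
  | succ k =>
    have h1 := chs m k
    have h2 := chp m k
    rw [h2]; push_cast
    linear_combination h1

def cB (k : ℕ) : ℚ := ((2*k).choose k : ℕ)

lemma cB_succ (k : ℕ) : ((k:ℚ)+1) * cB (k+1) = 2*(2*k+1) * cB k := by
  have e := Nat.succ_mul_centralBinom_succ k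
  unfold cB
  rw [← Nat.centralBinom_eq_two_mul_choose, ← Nat.centralBinom_eq_two_mul_choose]
  have e2 : (((k+1) * (k+1).centralBinom : ℕ) : ℚ) = ((2 * (2*k+1) * k.centralBinom : ℕ) : ℚ) := by
    exact_mod_cast e
  push_cast at e2
  exact e2

lemma cB_zero : cB 0 = 1 := by simp [cB]

def c (j : ℕ) : ℚ := cB j / 4^j
def e (k : ℕ) : ℚ := cB k / 2^k

lemma c_zero : c 0 = 1 := by simp [c, cB_zero]
lemma e_zero : e 0 = 1 := by simp [e, cB_zero]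

lemma c_succ (j : ℕ) : 2*((j:ℚ)+1) * c (j+1) = (2*j+1) * c j := by
  unfold c
  rw [pow_succ]
  have h := cB_succ j
  have h4 : (4:ℚ)^j ≠ 0 := by positivity
  field_simp
  linear_combination 2 * h

lemma e_succ (j : ℕ) : ((j:ℚ)+1) * e (j+1) = (2*j+1) * e j := by
  unfold e
  rw [pow_succ]
  have h := cB_succ j
  have h4 : (2:ℚ)^j ≠ 0 := by positivity
  field_simp
  linear_combination h

def L (n : ℕ) (x : ℚ) : ℚ := ∑ l ∈ range n, x^(l+1)/((l:ℚ)+1)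

lemma Dl (x : ℚ) (N : ℕ) : ∑ s ∈ range N, ((N.choose (s+1) : ℕ) : ℚ) * x^(s+1)/((s:ℚ)+1) =
    ∑ l ∈ range N, ((1+x)^(l+1) - 1)/((l:ℚ)+1) := by
  induction N with
  | zero => simp
  | succ N ih =>
    have h1 : ∑ s ∈ range (N+1), (((N+1).choose (s+1) : ℕ) : ℚ) * x^(s+1)/((s:ℚ)+1) =
        ∑ s ∈ range (N+1), (((N+1).choose (s+1) : ℕ) : ℚ) * x^(s+1)/((N:ℚ)+1) +
        ∑ s ∈ range (N+1), ((N.choose (s+1) : ℕ) : ℚ) * x^(s+1)/((s:ℚ)+1) := by
      rw [← sum_add_distrib]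
      apply sum_congr rfl
      intro s _
      have a1 := chp N s
      have a2 := cha N s
      have n1 : ((s:ℚ)+1) ≠ 0 := by positivity
      have n2 : ((N:ℚ)+1) ≠ 0 := by positivity
      have a3 : ((N.choose s : ℕ) : ℚ) = ((s:ℚ)+1) * (((N+1).choose (s+1) : ℕ) : ℚ) / ((N:ℚ)+1) := by
        rw [eq_div_iff n2]; linarith
      have a4 : (((N+1).choose (s+1) : ℕ) : ℚ) * x^(s+1)/((s:ℚ)+1) =
          ((N.choose s : ℕ) : ℚ) * x^(s+1)/((s:ℚ)+1) + ((N.choose (s+1) : ℕ) : ℚ) * x^(s+1)/((s:ℚ)+1) := by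
        rw [a1]; ring
      rw [a4, add_left_inj, a3]
      field_simp
    have h2 : ∑ s ∈ range (N+1), ((N.choose (s+1) : ℕ) : ℚ) * x^(s+1)/((s:ℚ)+1) =
        ∑ s ∈ range N, ((N.choose (s+1) : ℕ) : ℚ) * x^(s+1)/((s:ℚ)+1) := by
      rw [sum_range_succ, Nat.choose_eq_zero_of_lt (by omega)]; simp
    have h3 : ∑ s ∈ range (N+1), (((N+1).choose (s+1) : ℕ) : ℚ) * x^(s+1) = (1+x)^(N+1) - 1 := by
      rw [add_comm (1:ℚ) x, add_pow, sum_range_succ' _ (N+1)]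
      simp only [one_pow, mul_one, pow_zero, Nat.choose_zero_right, Nat.cast_one, add_sub_cancel_right]
      apply sum_congr rfl
      intro s _; ring
    rw [h1, h2, ih, ← sum_div, h3, sum_range_succ]; ring

section
variable {p : ℕ} [hp : Fact p.Prime] {n : ℕ}

lemma ndvd (hn : 2*n+1 = p) {m : ℕ} (h1 : 1 ≤ m) (h2 : m ≤ 2*n) : ¬ p ∣ m := fun h => by
  have := Nat.le_of_dvd (by omega) h
  omega

lemma ndvd_odd (hn : 2*n+1 = p) (h1 : 1 ≤ n) {i : ℕ} (hi : i ≤ 2*n+1) (hin : i ≠ n) : ¬ p ∣ 2*i+1 := by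
  rintro ⟨m, hm⟩
  rcases (show m = 0 ∨ m = 1 ∨ m = 2 ∨ 3 ≤ m by omega) with h | h | h | h
  · subst h; omega
  · subst h; omega
  · subst h; omega
  · have : p * 3 ≤ p * m := Nat.mul_le_mul_left p h
    omega

lemma inv_mem' (hn : 2*n+1 = p) {m : ℕ} (h2 : m + 1 ≤ 2*n) : (1/((m:ℚ)+1)) ∈ Z p := by
  have := inv_mem (ndvd hn (show 1 ≤ m+1 by omega) h2)
  push_cast at this
  rwa [← one_div] at this

def bq (n i : ℕ) : ℚ := if i = n then 0 else 1/(2*(i:ℚ)+1)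

lemma bq_mem (hn : 2*n+1 = p) (h1 : 1 ≤ n) {i : ℕ} (hi : i ≤ 2*n+1) : bq n i ∈ Z p := by
  unfold bq
  split_ifs with h
  · exact zero_mem _
  · have := inv_mem (ndvd_odd hn h1 hi h)
    push_cast at this
    rwa [← one_div] at this

lemma p_pow {x : ℚ} (m : ℕ) (hx : x ∈ Z p) : (p:ℚ)^m * x ∈ J p m := ppow_mem m hx

/-- p times p-integral is in J 1 -/
lemma pJ1 {x : ℚ} (hx : x ∈ Z p) : (p:ℚ) * x ∈ J p 1 := by
  have := ppow_mem 1 hx
  rwa [pow_one] at this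

lemma pJ2 {x : ℚ} (hx : x ∈ J p 1) : (p:ℚ) * x ∈ J p 2 := J_mul (p_mem) hx

lemma zmul {m : ℕ} {z x : ℚ} (hx : x ∈ J p m) (hz : z ∈ Z p) : z * x ∈ J p m := Z_mul_J hz hx

lemma unit_cancel {m b : ℕ} {x : ℚ} (hb : ¬ p ∣ b) (h : (b:ℚ) * x ∈ J p m) : x ∈ J p m := J_unit hb h

/-- binomials mod p^2 -/
lemma ch2 (hn : 2*n+1 = p) (m : ℕ) (hm : m ≤ 2*n) :
    (((2*n).choose m : ℕ) : ℚ) - (-1)^m * (1 - p * ∑ l ∈ range m, 1/((l:ℚ)+1)) ∈ J p 2 := by
  induction m with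
  | zero => simp only [Nat.choose_zero_right, Nat.cast_one, pow_zero, range_zero, sum_empty, mul_zero, sub_zero,
      one_mul, sub_self]; exact zero_mem _
  | succ m ih =>
    have ih := ih (by omega)
    apply unit_cancel (ndvd hn (show 1 ≤ m+1 by omega) hm)
    have hH : ∑ l ∈ range m, 1/((l:ℚ)+1) ∈ Z p := sum_mem fun l hl => inv_mem' hn (by rw [mem_range] at hl; omega)
    have hc := chs (2*n) m
    have hpq : ((2*n:ℕ):ℚ) = p - 1 := by rw [← hn]; push_cast; ring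
    rw [hpq] at hc
    have hm1 : ((m:ℚ)+1) ≠ 0 := by positivity
    rw [sum_range_succ]
    have e1 : ((m+1:ℕ):ℚ) * ((((2*n).choose (m+1) : ℕ) : ℚ) - (-1)^(m+1) *
        (1 - p * (∑ l ∈ range m, 1/((l:ℚ)+1) + 1/((m:ℚ)+1)))) =
        ((p:ℚ) - (m+1:ℕ)) * ((((2*n).choose m : ℕ) : ℚ) - (-1)^m * (1 - p * ∑ l ∈ range m, 1/((l:ℚ)+1))) +
        (p:ℚ)^2 * (-((-1)^m * ∑ l ∈ range m, 1/((l:ℚ)+1))) := by
      push_cast
      have e2 : ((m:ℚ)+1) * (1/((m:ℚ)+1)) = 1 := by field_simp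
      rw [pow_succ]
      linear_combination hc - (-1)^m * p * e2
    rw [e1]
    apply add_mem
    · exact zmul ih (sub_mem (nat_mem p) (nat_mem _))
    · exact ppow_mem 2 (neg_mem (mul_mem (pow_mem (neg_mem (one_mem _)) m) hH))

lemma ch1 (hn : 2*n+1 = p) (m : ℕ) (hm : m ≤ 2*n) :
    (((2*n).choose m : ℕ) : ℚ) - (-1)^m ∈ J p 1 := by
  have h := J_anti (show 1 ≤ 2 by norm_num) (ch2 hn m hm)
  have hH : ∑ l ∈ range m, 1/((l:ℚ)+1) ∈ Z p := sum_mem fun l hl => inv_mem' hn (by rw [mem_range] at hl; omega)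
  have h2 : (p:ℚ) * (-((-1)^m * ∑ l ∈ range m, 1/((l:ℚ)+1))) ∈ J p 1 :=
    pJ1 (neg_mem (mul_mem (pow_mem (neg_mem (one_mem _)) m) hH))
  have := add_mem h h2
  convert this using 1
  ring

lemma ch_p2 (hn : 2*n+1 = p) (l : ℕ) (hl : l + 1 ≤ 2*n) :
    (((2*n+1).choose (l+1) : ℕ) : ℚ) - p * ((-1)^l/((l:ℚ)+1)) ∈ J p 2 := by
  have h := cha (2*n) l
  have hpq : ((2*n:ℕ):ℚ) + 1 = p := by rw [← hn]; push_cast; ring
  rw [hpq] at h
  have h1 := ch1 hn l (by omega)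
  have hm1 : ((l:ℚ)+1) ≠ 0 := by positivity
  have e1 : (((2*n+1).choose (l+1) : ℕ) : ℚ) - p * ((-1)^l/((l:ℚ)+1)) =
      (1/((l:ℚ)+1)) * (p * ((((2*n).choose l : ℕ) : ℚ) - (-1)^l)) := by
    field_simp
    linear_combination h
  rw [e1]
  exact zmul (pJ2 h1) (inv_mem' hn hl)

lemma half_mem (hn : 2*n+1 = p) (h2 : 2 ≤ n) : (1/2:ℚ) ∈ Z p := by
  have := inv_mem' hn (show 1 + 1 ≤ 2*n by omega)
  norm_num at this ⊢
  exact this

lemma third_mem (hn : 2*n+1 = p) (h2 : 2 ≤ n) : (1/3:ℚ) ∈ Z p := by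
  have := inv_mem' hn (show 2 + 1 ≤ 2*n by omega)
  norm_num at this ⊢
  exact this

lemma quarter_mem (hn : 2*n+1 = p) (h2 : 2 ≤ n) : (1/4:ℚ) ∈ Z p := by
  have := inv_mem' hn (show 3 + 1 ≤ 2*n by omega)
  norm_num at this ⊢
  exact this

lemma L_mem (hn : 2*n+1 = p) {x : ℚ} (hx : x ∈ Z p) : L n x ∈ Z p := by
  unfold L
  apply sum_mem
  intro l hl
  rw [mem_range] at hl
  rw [div_eq_mul_one_div]
  exact mul_mem (pow_mem hx _) (inv_mem' hn (by omega))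

lemma two_n_eq (hn : 2*n+1 = p) : ((2*n:ℕ):ℚ) = p - 1 := by rw [← hn]; push_cast; ring

lemma ch_even (hn : 2*n+1 = p) (j : ℕ) (hj : j < n) :
    (((2*n+1).choose (2*(j+1)) : ℕ) : ℚ) + p * (1/(2*((j:ℚ)+1))) ∈ J p 2 := by
  have h := ch_p2 hn (2*j+1) (by omega)
  convert h using 1
  rw [show 2*j+1+1 = 2*(j+1) by ring]
  have : (-1:ℚ)^(2*j+1) = -1 := by rw [pow_succ, pow_mul]; norm_num
  rw [this]; push_cast
  ring

lemma pL (hn : 2*n+1 = p) {x : ℚ} (hx : x ∈ Z p) : p * L n x + 2 * E n x - 2 ∈ J p 2 := by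
  unfold L E
  rw [sum_range_succ', mul_sum]
  have e1 : ∑ i ∈ range n, (p:ℚ) * (x^(i+1)/((i:ℚ)+1)) +
      2 * (∑ k ∈ range n, (((2*n+1).choose (2*(k+1)) : ℕ) : ℚ) * x^(k+1) +
        (((2*n+1).choose (2*0) : ℕ) : ℚ) * x^0) - 2 =
      ∑ k ∈ range n, 2 * x^(k+1) * ((((2*n+1).choose (2*(k+1)) : ℕ) : ℚ) + p * (1/(2*((k:ℚ)+1)))) := by
    rw [mul_add, mul_sum]
    simp only [mul_zero, Nat.choose_zero_right, Nat.cast_one, pow_zero, mul_one]
    rw [← add_assoc, add_sub_cancel_right, ← sum_add_distrib]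
    apply sum_congr rfl
    intro k _
    have hm1 : ((k:ℚ)+1) ≠ 0 := by positivity
    field_simp
    ring
  rw [e1]
  apply sum_mem
  intro k hk
  rw [mem_range] at hk
  exact zmul (ch_even hn k hk) (mul_mem (nat_mem 2) (pow_mem hx _))

/-! Fermat quotients -/

lemma ferm (hn : 2*n+1 = p) (k : ℕ) (hk : ¬ p ∣ k) : ((k:ℚ)^2)^n - 1 ∈ J p 1 := by
  have hc : IsCoprime (k:ℤ) (p:ℤ) := by
    rw [Nat.isCoprime_iff_coprime]
    exact ((Nat.Prime.coprime_iff_not_dvd hp.out).2 hk).symm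
  have h := Int.ModEq.pow_card_sub_one_eq_one hp.out hc
  have h2 := h.symm.dvd
  rw [show p - 1 = 2*n by omega] at h2
  obtain ⟨z, hz⟩ := h2
  refine ⟨(z:ℚ), int_mem z, ?_⟩
  rw [← pow_mul, pow_one]
  exact_mod_cast hz

lemma a_mem (hn : 2*n+1 = p) (h2 : 2 ≤ n) : (4:ℚ)^n - 1 ∈ J p 1 := by
  have := ferm hn 2 (ndvd hn (by omega) (by omega))
  norm_num at this ⊢
  exact this

lemma b_mem (hn : 2*n+1 = p) (h2 : 2 ≤ n) : (9:ℚ)^n - 1 ∈ J p 1 := by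
  have := ferm hn 3 (ndvd hn (by omega) (by omega))
  norm_num at this ⊢
  exact this

lemma E_one (n : ℕ) : E n 1 = 4^n := by
  have h := E_sq n 1
  norm_num at h
  have : (2:ℚ)^(2*n+1) = 2 * 4^n := by rw [pow_succ, pow_mul]; norm_num; ring
  rw [this] at h
  linarith

lemma E_four (n : ℕ) : 2 * E n 4 = 3 * 9^n - 1 := by
  have h := E_sq n 2
  norm_num at h
  have h3 : (3:ℚ)^(2*n+1) = 3 * 9^n := by rw [pow_succ, pow_mul]; norm_num; ring
  have h1 : (-1:ℚ)^(2*n+1) = -1 := by rw [pow_succ, pow_mul]; norm_num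
  rw [h3, h1] at h
  linarith

lemma E_quarter (n : ℕ) : 4 * 4^n * E n (1/4) = 3 * 9^n + 1 := by
  have h := E_sq n (1/2)
  norm_num at h
  have h3 : (3/2:ℚ)^(2*n+1) * (2 * 4^n) = 3 * 9^n := by
    have : (2:ℚ) * 4^n = 2^(2*n+1) := by rw [pow_succ, pow_mul]; norm_num; ring
    rw [this, ← mul_pow, pow_succ, pow_mul]; norm_num; ring
  have h1 : (1/2:ℚ)^(2*n+1) * (2 * 4^n) = 1 := by
    have : (2:ℚ) * 4^n = 2^(2*n+1) := by rw [pow_succ, pow_mul]; norm_num; ring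
    rw [this, ← mul_pow]; norm_num
  linear_combination (2 * 4^n) * h + h3 + h1

lemma L_one (hn : 2*n+1 = p) : p * L n 1 + 2 * ((4:ℚ)^n - 1) ∈ J p 2 := by
  have h := pL hn (one_mem (Z p))
  rw [E_one] at h
  convert h using 1
  ring

lemma L_four (hn : 2*n+1 = p) : p * L n 4 + 3 * ((9:ℚ)^n - 1) ∈ J p 2 := by
  have h := pL hn (show (4:ℚ) ∈ Z p from nat_mem 4)
  rw [E_four] at h
  convert h using 1
  ring

lemma J1sq {x y : ℚ} (hx : x ∈ J p 1) (hy : y ∈ J p 1) : x * y ∈ J p 2 := J_mul hx hy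

lemma four_unit (hn : 2*n+1 = p) (h2 : 2 ≤ n) : ¬ p ∣ 4^n := by
  intro h
  have := hp.out.dvd_of_dvd_pow h
  exact ndvd hn (by omega) (show 4 ≤ 2*n by omega) this

lemma L_quarter (hn : 2*n+1 = p) (h2 : 2 ≤ n) :
    p * L n (1/4) - 2 * ((4:ℚ)^n - 1) + 3/2 * ((9:ℚ)^n - 1) ∈ J p 2 := by
  have h := pL hn (quarter_mem hn h2)
  have hE := E_quarter n
  have ha := a_mem hn h2
  have hb := b_mem hn h2
  have h3 : 2 * E n (1/4) - 2 + 2 * ((4:ℚ)^n - 1) - 3/2 * ((9:ℚ)^n - 1) ∈ J p 2 := by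
    apply unit_cancel (b := 4^n) (four_unit hn h2)
    apply unit_cancel (b := 2) (ndvd hn (by omega) (by omega))
    have e1 : ((2:ℕ):ℚ) * (((4^n : ℕ) : ℚ) * (2 * E n (1/4) - 2 + 2 * ((4:ℚ)^n - 1) - 3/2 * ((9:ℚ)^n - 1))) =
      4 * (((4:ℚ)^n - 1) * ((4:ℚ)^n - 1)) - 3 * (((4:ℚ)^n - 1) * ((9:ℚ)^n - 1)) := by
      push_cast
      linear_combination hE
    rw [e1]
    exact sub_mem (zmul (J1sq ha ha) (nat_mem 4)) (zmul (J1sq ha hb) (nat_mem 3))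
  have := sub_mem h h3
  convert this using 1
  ring

lemma L_m1 (hn : 2*n+1 = p) : p * L n (-1) + ((4:ℚ)^n - 1) ∈ J p 2 := by
  have h := Nat.sum_range_choose_halfway n
  have h2 : (4:ℚ)^n = ∑ l ∈ range n, (((2*n+1).choose (l+1) : ℕ) : ℚ) + 1 := by
    rw [sum_range_succ'] at h
    simp only [Nat.choose_zero_right] at h
    exact_mod_cast h.symm
  rw [h2, add_sub_cancel_right]
  unfold L
  rw [mul_sum, ← sum_add_distrib]
  apply sum_mem
  intro l hl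
  rw [mem_range] at hl
  have := ch_p2 hn l (by omega)
  convert this using 1
  rw [pow_succ]; ring

/-- Morley mod p² -/
lemma morley (hn : 2*n+1 = p) : cB n - (-1)^n * (1 + 2 * ((4:ℚ)^n - 1)) ∈ J p 2 := by
  have h := ch2 hn n (by omega)
  have hL := L_one hn
  have e0 : L n 1 = ∑ l ∈ range n, 1/((l:ℚ)+1) := by unfold L; simp
  rw [← e0] at h
  have h3 := sub_mem h (zmul hL (pow_mem (neg_mem (one_mem (Z p))) n))
  convert h3 using 1
  unfold cB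
  ring

lemma eps_sq (n : ℕ) : ((-1:ℚ)^n) * (-1)^n = 1 := by rw [← mul_pow]; norm_num

/-- `β = C(2n,n)/4^n ≡ (-1)^n 4^n` -/
lemma beta2 (hn : 2*n+1 = p) (h2 : 2 ≤ n) : (-1)^n * c n - 4^n ∈ J p 2 := by
  have h := morley hn
  have ha := a_mem hn h2
  apply unit_cancel (b := 4^n) (four_unit hn h2)
  have h3 := sub_mem (zmul h (pow_mem (neg_mem (one_mem (Z p))) n)) (J1sq ha ha)
  convert h3 using 1
  have e1 : c n * 4^n = cB n := by unfold c; field_simp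
  have e2 := eps_sq n
  push_cast
  linear_combination (-1)^n * e1 + (1 + 2 * ((4:ℚ)^n - 1)) * e2

lemma beta1 (hn : 2*n+1 = p) (h2 : 2 ≤ n) : c n - (-1)^n ∈ J p 1 := by
  have h := J_anti (show 1 ≤ 2 by norm_num) (beta2 hn h2)
  have ha := a_mem hn h2
  have h3 := zmul (add_mem h ha) (pow_mem (neg_mem (one_mem (Z p))) n)
  convert h3 using 1
  have e2 := eps_sq n
  linear_combination -(c n) * e2

/-- central binomials mod p -/
lemma cb1 (hn : 2*n+1 = p) (i : ℕ) (hi : i ≤ 2*n) : cB i - (-4)^i * ((n.choose i : ℕ) : ℚ) ∈ J p 1 := by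
  induction i with
  | zero => simp only [cB_zero, pow_zero, Nat.choose_zero_right, Nat.cast_one, mul_one, sub_self]; exact zero_mem _
  | succ i ih =>
    have ih := ih (by omega)
    apply unit_cancel (ndvd hn (show 1 ≤ i+1 by omega) hi)
    have h1 := cB_succ i
    have h2 := chs n i
    have hpq : 2 * (n:ℚ) + 1 = p := by rw [← hn]; push_cast; ring
    have e1 : ((i+1:ℕ):ℚ) * (cB (i+1) - (-4)^(i+1) * ((n.choose (i+1) : ℕ) : ℚ)) =
        2*(2*i+1) * (cB i - (-4)^i * ((n.choose i : ℕ) : ℚ)) + p * (2 * (-4)^i * ((n.choose i : ℕ) : ℚ)) := by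
      push_cast
      rw [← hpq, pow_succ]
      linear_combination h1 + 4 * (-4)^i * h2
    rw [e1]
    apply add_mem
    · have := zmul ih (nat_mem (p := p) (2*(2*i+1)))
      push_cast at this
      exact this
    · apply pJ1
      exact mul_mem (mul_mem (nat_mem 2) (pow_mem (neg_mem (nat_mem 4)) _)) (nat_mem _)

end

end Pool.Agent.V11304.TB
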