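import Pool.Agent.V11304.TB.One

set_option autoImplicit false

namespace Pool.Agent.V11304.TB

open Finset Pool.Agent.V11304.SC

def h (N k : ℕ) : ℚ := ∑ j ∈ range (N+1), c j / ((j:ℚ)+1) * ((2*j).choose k : ℕ)

lemma h_rec (N k : ℕ) : ((k:ℚ)+1) * h N (k+1) + ((k:ℚ)+2) * h N k = 2 * g N k := by
  unfold h g
  rw [mul_sum, mul_sum, mul_sum, ← sum_add_distrib]
  apply sum_congr rfl
  intro j _
  have h1 := chs (2*j) k
  have n1 : ((j:ℚ)+1) ≠ 0 := by positivity
  push_cast at h1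
  field_simp
  linear_combination c j * h1

lemma h_zero (N : ℕ) : h N 0 = 2 - 2 * c (N+1) := by
  induction N with
  | zero =>
    unfold h
    have := c_succ 0
    rw [c_zero] at this
    rw [zero_add, sum_range_one, c_zero]
    norm_num at this ⊢
    linarith
  | succ N ih =>
    unfold h at ih ⊢
    rw [sum_range_succ, ih, Nat.choose_zero_right]
    have := c_succ (N+1)
    have n1 : (((N+1:ℕ):ℚ)+1) ≠ 0 := by positivity
    push_cast at this n1 ⊢
    field_simp
    linear_combination this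

def q (n k : ℕ) : ℚ := e k * h n k

lemma q_rec (n k : ℕ) : ((k:ℚ)+1)^2 * q n (k+1) + (2*k+1) * (k+2) * q n k = 2 * w n k := by
  unfold q w
  have h1 := h_rec n k
  have h2 := e_succ k
  linear_combination ((k:ℚ)+1) * e (k+1) * h1 - ((k+2) * h n k - 2 * g n k) * h2

def u (k : ℕ) : ℚ := (-1)^k * (k+1) * e k

lemma u_rec (k : ℕ) : ((k:ℚ)+1)^2 * u (k+1) + (2*k+1) * (k+2) * u k = 0 := by
  unfold u
  have h2 := e_succ k
  rw [pow_succ]
  push_cast
  linear_combination -(-1)^k * (k+1) * (k+2) * h2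

def V (n : ℕ) : ℚ := ∑ k ∈ range (2*n+1), u k

lemma V_eq0 (N : ℕ) : 3 * ∑ k ∈ range (N+1), u k = 2 * ∑ k ∈ range (N+1), (-1)^k * e k +
    (-1)^N * (2*N+1) * e N := by
  induction N with
  | zero =>
    unfold u
    rw [zero_add, sum_range_one, sum_range_one, e_zero]; norm_num
  | succ N ih =>
    rw [sum_range_succ, sum_range_succ _ (N+1), mul_add, ih]
    have h2 := e_succ N
    unfold u
    rw [pow_succ]
    push_cast
    linear_combination -(-1)^N * h2

lemma V_eq (n : ℕ) : 3 * V n = 2 * V0 n + (2*n+1) * (kap n * 4^n) := by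
  have h := V_eq0 (2*n)
  unfold V V0
  rw [h]
  have h1 := kap_eq n
  have e1 : (-1:ℚ)^(2*n) = 1 := by rw [pow_mul]; norm_num
  have e2 : e (2*n) = c (2*n) * 4^n := by
    unfold e c
    have : (2:ℚ)^(2*n) = 4^n := by rw [pow_mul]; norm_num
    have h4 : (4:ℚ)^(2*n) = 4^n * 4^n := by rw [two_mul, pow_add]
    rw [this, h4]
    have : (4:ℚ)^n ≠ 0 := by positivity
    field_simp
  rw [e1, e2]
  push_cast
  linear_combination -(4:ℚ)^n * h1

def A (N k : ℕ) : ℚ := ∑ j ∈ range N, (-1)^j * ((j.choose k : ℕ) : ℚ)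

lemma A_rec (N k : ℕ) : 2 * A N (k+1) + A N k = -((-1)^N * ((N.choose (k+1) : ℕ) : ℚ)) := by
  induction N with
  | zero => simp [A]
  | succ N ih =>
    unfold A at ih ⊢
    rw [sum_range_succ, sum_range_succ, chp, pow_succ]
    linear_combination ih

lemma A_zero (N : ℕ) : 2 * A N 0 = 1 - (-1)^N := by
  induction N with
  | zero => simp [A]
  | succ N ih =>
    unfold A at ih ⊢
    rw [sum_range_succ, pow_succ, Nat.choose_zero_right]
    push_cast
    linear_combination ih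

lemma hs (N k : ℕ) : ∑ j ∈ range N, ((j.choose k : ℕ) : ℚ) = ((N.choose (k+1) : ℕ) : ℚ) := by
  induction N with
  | zero => simp
  | succ N ih => rw [sum_range_succ, ih, chp]; ring

def y (n j : ℕ) : ℚ := ((-1)^j + (-1)^n) * bq n (j+1)

lemma y_eq (n j : ℕ) : y n j * (2*j+3) = (-1)^j + (-1)^n := by
  unfold y bq
  split_ifs with h
  · rw [← h, pow_succ]; ring
  · have : (2*((j+1:ℕ):ℚ)+1) ≠ 0 := by positivity
    push_cast at this ⊢
    field_simp
    ring

def Y (n k : ℕ) : ℚ := 2^k * ∑ j ∈ range (2*n+1), y n j * ((j.choose k : ℕ) : ℚ)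

lemma Y_rec (n k : ℕ) : ((k:ℚ)+1) * Y n (k+1) + (2*k+3) * Y n k =
    2^k * (A (2*n+1) k + (-1)^n * (((2*n+1).choose (k+1) : ℕ) : ℚ)) := by
  unfold Y A
  rw [← hs (2*n+1) k, mul_sum, mul_sum, mul_sum, mul_sum, mul_sum, ← sum_add_distrib, mul_add, mul_sum, mul_sum,
    ← sum_add_distrib]
  apply sum_congr rfl
  intro j _
  have h1 := chs j k
  have h2 := y_eq n j
  rw [pow_succ]
  linear_combination 2^k * 2 * y n j * h1 + 2^k * ((j.choose k : ℕ) : ℚ) * h2

def Yp (n : ℕ) : ℕ → ℚ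
  | 0 => -1
  | k+1 => Y n k

section
variable {p : ℕ} [hp : Fact p.Prime] {n : ℕ}

lemma A_cong (hn : 2*n+1 = p) {k : ℕ} (hk : k ≤ 2*n) : 2^k * A (2*n+1) k - (-1)^k ∈ J p 1 := by
  have hodd : (-1:ℚ)^(2*n+1) = -1 := by rw [pow_succ, pow_mul]; norm_num
  induction k with
  | zero =>
    have := A_zero (2*n+1)
    rw [hodd] at this
    convert zero_mem (J p 1) using 1
    rw [pow_zero, pow_zero]
    linarith
  | succ k ih =>
    have ih := ih (by omega)
    have h := A_rec (2*n+1) k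
    rw [hodd] at h
    have h3 := zmul (choose_J1 hn hk) (pow_mem (nat_mem (p := p) 2) k)
    have := sub_mem h3 ih
    convert this using 1
    rw [pow_succ, pow_succ]
    push_cast
    linear_combination 2^k * h

lemma y_mem (hn : 2*n+1 = p) (h2 : 2 ≤ n) {j : ℕ} (hj : j ≤ 2*n) : y n j ∈ Z p :=
  mul_mem (add_mem (m1_mem j) (m1_mem n)) (bq_mem hn (by omega) (by omega))

lemma Y_mem (hn : 2*n+1 = p) (h2 : 2 ≤ n) (k : ℕ) : Y n k ∈ Z p :=
  mul_mem (pow_mem (nat_mem 2) k) (sum_mem fun j hj => mul_mem (y_mem hn h2 (by rw [mem_range] at hj; omega)) (nat_mem _))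

lemma r_mem (hn : 2*n+1 = p) {k : ℕ} (hk : k + 1 ≤ 2*n) :
    ((k:ℚ)+1) * Y n (k+1) + (2*k+3) * Y n k - (-1)^k ∈ J p 1 := by
  rw [Y_rec]
  have h1 := A_cong hn (show k ≤ 2*n by omega)
  have h2 := zmul (choose_J1 hn hk) (mul_mem (pow_mem (nat_mem (p := p) 2) k) (m1_mem n))
  have := add_mem h1 h2
  convert this using 1
  push_cast
  ring

lemma r'_mem (hn : 2*n+1 = p) {k : ℕ} (hk : k ≤ 2*n) :
    (k:ℚ) * Y n k + (2*k+1) * Yp n k + (-1)^k ∈ J p 1 := by
  cases k with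
  | zero =>
    convert zero_mem (J p 1) using 1
    unfold Yp
    push_cast; ring
  | succ k =>
    have := r_mem hn hk
    convert this using 1
    unfold Yp
    push_cast
    rw [pow_succ]
    ring

lemma bq_last (hn : 2*n+1 = p) (h2 : 2 ≤ n) : bq n (2*n+1) - 1 ∈ J p 1 := by
  have h := pJ1 (mul_mem (neg_mem (nat_mem (p := p) 2)) (bq_mem hn (by omega) (show 2*n+1 ≤ 2*n+1 by omega)))
  convert h using 1
  unfold bq
  rw [if_neg (by omega), ← pcast hn]
  have : (2*((2*n+1:ℕ):ℚ)+1) ≠ 0 := by positivity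
  push_cast at this ⊢
  field_simp
  ring

lemma ysum0 (hn : 2*n+1 = p) (h2 : 2 ≤ n) (x : ℚ) : ∑ j ∈ range (2*n+1), bq n (j+1) * x^(j+1) =
    B n x + bq n (2*n+1) * x^(2*n+1) - 1 := by
  have e1 : ∑ i ∈ range (2*n+1+1), bq n i * x^i = B n x + bq n (2*n+1) * x^(2*n+1) := by
    rw [sum_range_succ]; rfl
  rw [← e1, sum_range_succ' _ (2*n+1)]
  have : bq n 0 = 1 := by unfold bq; rw [if_neg (by omega)]; norm_num
  rw [this]; ring

lemma ysum (hn : 2*n+1 = p) (h2 : 2 ≤ n) (x : ℚ) : x * ∑ j ∈ range (2*n+1), y n j * x^j =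
    (-1)^n * (B n x + bq n (2*n+1) * x^(2*n+1) - 1) - (B n (-x) - bq n (2*n+1) * x^(2*n+1) - 1) := by
  have h1 := ysum0 hn h2 x
  have h3 := ysum0 hn h2 (-x)
  have hodd : (-x)^(2*n+1) = -x^(2*n+1) := by
    rw [pow_succ, pow_mul, neg_sq, ← pow_mul, pow_succ]; ring
  rw [hodd] at h3
  have h4 : B n (-x) - bq n (2*n+1) * x^(2*n+1) - 1 = B n (-x) + bq n (2*n+1) * -x^(2*n+1) - 1 := by ring
  rw [h4, ← h1, ← h3, mul_sum, mul_sum, ← sum_sub_distrib]
  apply sum_congr rfl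
  intro j _
  unfold y
  rw [neg_pow x (j+1), pow_succ, pow_succ]
  ring

lemma Y0_cong (hn : 2*n+1 = p) (h2 : 2 ≤ n) : Y n 0 - 2 ∈ J p 1 := by
  have h := ysum hn h2 1
  have hb := bq_last hn h2
  have h3 := add_mem (sub_mem (zmul (B_one hn h2) (m1_mem (p := p) n)) (B_m1 hn h2))
    (zmul hb (add_mem (m1_mem (p := p) n) (one_mem _)))
  convert h3 using 1
  have h4 : Y n 0 = ∑ j ∈ range (2*n+1), y n j * 1^j := by
    unfold Y
    rw [pow_zero, one_mul]
    apply sum_congr rfl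
    intro j _
    rw [Nat.choose_zero_right, one_pow]; norm_num
  rw [h4]
  rw [one_pow, mul_one, one_mul] at h
  rw [h]; ring

def SY (n : ℕ) : ℚ := ∑ k ∈ range (2*n+1), Y n k

lemma SY_eq (n : ℕ) : SY n = ∑ j ∈ range (2*n+1), y n j * 3^j := by
  unfold SY Y
  have h1 : ∀ k ∈ range (2*n+1), (2:ℚ)^k * ∑ j ∈ range (2*n+1), y n j * ((j.choose k : ℕ) : ℚ) =
      ∑ j ∈ range (2*n+1), y n j * (2^k * ((j.choose k : ℕ) : ℚ)) := by
    intro k _
    rw [mul_sum]
    apply sum_congr rfl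
    intro j _; ring
  rw [sum_congr rfl h1, sum_comm]
  apply sum_congr rfl
  intro j hj
  rw [mem_range] at hj
  rw [← mul_sum]
  congr 1
  rw [show (3:ℚ) = 2 + 1 by norm_num, add_pow]
  symm
  have : ∀ k ∈ range (j+1), (2:ℚ)^k * 1^(j-k) * ((j.choose k : ℕ) : ℚ) = 2^k * ((j.choose k : ℕ) : ℚ) := by
    intro k _; rw [one_pow, mul_one]
  rw [sum_congr rfl this]
  apply sum_subset
  · intro x hx; rw [mem_range] at *; omega
  · intro x _ hx
    rw [mem_range, not_lt] at hx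
    rw [Nat.choose_eq_zero_of_lt (by omega)]; simp

lemma SY_cong (hn : 2*n+1 = p) (h2 : 2 ≤ n) :
    3 * SY n - ((-1)^n * B n 3 - B n (-3) + 2 * (-1)^n + 4) ∈ J p 1 := by
  rw [SY_eq, ysum hn h2 3]
  have hb := bq_last hn h2
  have h9 := b_mem hn h2
  have h3 : (3:ℚ)^(2*n+1) = 3 * 9^n := by rw [pow_succ, pow_mul]; norm_num; ring
  have h4 := cong_mul hb h9 (bq_mem hn (by omega) (show 2*n+1 ≤ 2*n+1 by omega)) (one_mem _)
  have h5 := zmul h4 (mul_mem (nat_mem (p := p) 3) (add_mem (m1_mem (p := p) n) (one_mem _)))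
  convert h5 using 1
  rw [h3]
  push_cast
  ring

lemma Ylast (hn : 2*n+1 = p) (h2 : 2 ≤ n) : Y n (2*n) - (1 + (-1)^n) ∈ J p 1 := by
  have h1 : Y n (2*n) = 4^n * ((1 + (-1)^n) * bq n (2*n+1)) := by
    unfold Y
    rw [sum_range_succ, pow_mul]
    have : ∑ j ∈ range (2*n), y n j * ((j.choose (2*n) : ℕ) : ℚ) = 0 := by
      apply sum_eq_zero
      intro j hj
      rw [mem_range] at hj
      rw [Nat.choose_eq_zero_of_lt hj]; simp
    rw [this, Nat.choose_self]
    unfold y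
    have : (-1:ℚ)^(2*n) = 1 := by rw [pow_mul]; norm_num
    rw [this]; norm_num
  rw [h1]
  have hb := bq_last hn h2
  have ha := a_mem hn h2
  have h4 := cong_mul ha hb (pow_mem (nat_mem 4) n) (one_mem _)
  have h5 := zmul h4 (add_mem (one_mem _) (m1_mem (p := p) n))
  convert h5 using 1
  push_cast
  ring

def D (n k : ℕ) : ℚ := q n k - 2 * u k + 2 * ((2*n+1) * c n * (Y n k + Yp n k))

lemma D_mem (hn : 2*n+1 = p) (h2 : 2 ≤ n) {k : ℕ} (hk : k ≤ 2*n) : D n k ∈ J p 2 := by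
  induction k with
  | zero =>
    have h1 := c_succ n
    have hpc := pcast hn
    have hc1 : c (n+1) ∈ J p 1 := by
      apply unit_cancel (b := 2*(n+1))
      · intro h
        have h5 : p ∣ 2*(n+1) := h
        have : p ∣ 1 := by
          have e : 2*(n+1) = p + 1 := by omega
          rw [e] at h5
          exact (Nat.dvd_add_right (dvd_refl p)).1 h5
        have := Nat.le_of_dvd (by norm_num) this
        omega
      · have := pJ1 (c_mem hn h2 n)
        convert this using 1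
        rw [← hpc]; push_cast; linear_combination h1
    have h3 := add_mem (zmul (pJ2 hc1) (nat_mem (p := p) 2))
      (zmul (pJ2 (Y0_cong hn h2)) (mul_mem (nat_mem (p := p) 2) (c_mem hn h2 n)))
    convert h3 using 1
    unfold D q u Yp
    rw [h_zero, e_zero, ← hpc]
    push_cast
    linear_combination -2 * h1
  | succ k ih =>
    have ih := ih (by omega)
    apply unit_cancel (ndvd hn (show 1 ≤ k+1 by omega) hk)
    apply unit_cancel (ndvd hn (show 1 ≤ k+1 by omega) hk)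
    have hr := r_mem hn hk
    have hr' := r'_mem hn (show k ≤ 2*n by omega)
    have hw := w_cong0 hn h2 (show k ≤ 2*n by omega)
    have hq := q_rec n k
    have hu := u_rec k
    have t1 := zmul ih (neg_mem (mul_mem (nat_mem (p := p) (2*k+1)) (nat_mem (k+2))))
    have t2 := zmul hw (nat_mem (p := p) 2)
    have t3 := zmul (pJ2 (add_mem (zmul hr (nat_mem (p := p) (k+1))) (zmul hr' (nat_mem (p := p) (k+2)))))
      (mul_mem (nat_mem (p := p) 2) (c_mem hn h2 n))
    have t4 := add_mem (add_mem t1 t2) t3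
    convert t4 using 1
    have hyp : Yp n (k+1) = Y n k := rfl
    unfold D
    rw [hyp, ← pcast hn]
    push_cast
    linear_combination hq - 2 * hu

lemma sum_Yp (n : ℕ) : ∑ k ∈ range (2*n+1), Yp n k = SY n - Y n (2*n) - 1 := by
  rw [sum_range_succ']
  have h1 : ∑ k ∈ range (2*n), Yp n (k+1) = ∑ k ∈ range (2*n), Y n k := rfl
  have h3 : Yp n 0 = -1 := rfl
  unfold SY
  rw [h1, h3, sum_range_succ]; ring

def Q (n : ℕ) : ℚ := ∑ k ∈ range (2*n+1), q n k

lemma Q_cong0 (hn : 2*n+1 = p) (h2 : 2 ≤ n) :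
    Q n - (2 * V n - 2 * (p * c n * (2 * SY n - Y n (2*n) - 1))) ∈ J p 2 := by
  have h1 : ∑ k ∈ range (2*n+1), D n k ∈ J p 2 :=
    sum_mem fun k hk => D_mem hn h2 (by rw [mem_range] at hk; omega)
  convert h1 using 1
  unfold D
  rw [sum_add_distrib, sum_sub_distrib, ← mul_sum, ← mul_sum, ← mul_sum, sum_add_distrib, sum_Yp, ← pcast hn]
  unfold Q V
  have : ∑ k ∈ range (2*n+1), Y n k = SY n := rfl
  rw [this]; ring

/-- (3) -/
lemma Q_cong (hn : 2*n+1 = p) (h2 : 2 ≤ n) :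
    Q n - 4/3 * ((-1)^n * eps3 n - p * (-1)^n) ∈ J p 2 := by
  have h0 := Q_cong0 hn h2
  have hV := V_eq n
  rw [pcast hn] at hV
  have hV0 := V0_cong hn h2
  have hk4 := cong_mul (kap1 hn h2) (a_mem hn h2) (kap_mem hn h2) (one_mem _)
  have hS := S_cong hn h2 (nat_mem (p := p) 3)
  have hS3 := S_three hn h2
  have hb := beta1 hn h2
  have hy1 := SY_cong hn h2
  have hy2 := Ylast hn h2
  have hB3 := B_mem hn h2 (nat_mem (p := p) 3)
  have hB3' := B_mem hn h2 (neg_mem (nat_mem (p := p) 3))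
  have hin := sub_mem (zmul hy1 (nat_mem (p := p) 2)) (zmul hy2 (nat_mem (p := p) 3))
  have hZ : 2 * ((-1)^n * B n 3 - B n (-3) + 2 * (-1)^n + 4) - 3 * (1 + (-1)^n) - 3 ∈ Z p := by
    have m := m1_mem (p := p) n
    push_cast at hB3 hB3'
    exact sub_mem (sub_mem (mul_mem (nat_mem 2) (add_mem (add_mem (sub_mem (mul_mem m hB3) hB3')
      (mul_mem (nat_mem 2) m)) (nat_mem 4))) (mul_mem (nat_mem 3) (add_mem (one_mem _) m))) (nat_mem 3)
  have hin2 : (6 * SY n - 3 * Y n (2*n) - 3) - (2 * ((-1)^n * B n 3 - B n (-3) + 2 * (-1)^n + 4) - 3 * (1 + (-1)^n) - 3) ∈ J p 1 := by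
    convert hin using 1
    push_cast; ring
  have hprod := cong_mul hb hin2 (c_mem hn h2 n) hZ
  apply unit_cancel (b := 3) (ndvd hn (by omega) (by omega))
  have f1 := zmul h0 (nat_mem (p := p) 3)
  have f2 := zmul hV0 (nat_mem (p := p) 4)
  have f3 := zmul (pJ2 hk4) (nat_mem (p := p) 2)
  have f4 := zmul (pJ2 hprod) (nat_mem (p := p) 2)
  have f5 := zmul (sub_mem hS3 hS) (nat_mem (p := p) 4)
  have f6 := add_mem (sub_mem (add_mem (add_mem f1 f2) f3) f4) f5
  convert f6 using 1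
  have e2 := eps_sq n
  push_cast
  linear_combination 2 * hV - (4 * p * B n 3 + 2 * p) * e2

end

end Pool.Agent.V11304.TB
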