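import Pool.Agent.V11304.TB.Cat

set_option autoImplicit false

namespace Pool.Agent.V11304.TB

open Finset Pool.Agent.V11304.SC

/-- `T n b c` is the coefficient of `x^n` in `(x^2 + b x + c)^n`. -/
noncomputable def T (n : ℕ) (b c : ℤ) : ℤ :=
  ((Polynomial.X ^ 2 + Polynomial.C b * Polynomial.X + Polynomial.C c : Polynomial ℤ) ^ n).coeff n

lemma T_eq (N : ℕ) (a b : ℤ) : T N (b + 2*a) (a^2) =
    ∑ k ∈ range (N+1), ((N.choose k : ℕ) : ℤ) * (((2*k).choose k : ℕ) : ℤ) * a^k * b^(N-k) := by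
  unfold T
  have h1 : (Polynomial.X ^ 2 + Polynomial.C (b+2*a) * Polynomial.X + Polynomial.C (a^2) : Polynomial ℤ) =
      (Polynomial.X + Polynomial.C a)^2 + Polynomial.C b * Polynomial.X := by
    rw [Polynomial.C_add, Polynomial.C_mul, Polynomial.C_pow]
    have : (Polynomial.C (2:ℤ) : Polynomial ℤ) = 2 := rfl
    rw [this]; ring
  rw [h1, add_pow, Polynomial.finset_sum_coeff]
  apply sum_congr rfl
  intro k hk
  rw [mem_range] at hk
  have h2 : ((Polynomial.X + Polynomial.C a : Polynomial ℤ)^2)^k * (Polynomial.C b * Polynomial.X)^(N-k) * ((N.choose k : ℕ) : Polynomial ℤ) =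
      (Polynomial.C (b^(N-k) * ((N.choose k : ℕ) : ℤ)) * (Polynomial.X + Polynomial.C a)^(2*k)) * Polynomial.X^(N-k) := by
    rw [Polynomial.C_mul, Polynomial.C_pow, mul_pow, ← pow_mul]
    have : (Polynomial.C ((N.choose k : ℕ) : ℤ) : Polynomial ℤ) = ((N.choose k : ℕ) : Polynomial ℤ) := by simp
    rw [this]; ring
  rw [h2]
  have h3 : N = k + (N-k) := by omega
  conv_lhs => rw [show (((Polynomial.C (b^(N-k) * ((N.choose k : ℕ) : ℤ)) * (Polynomial.X + Polynomial.C a)^(2*k)) * Polynomial.X^(N-k) : Polynomial ℤ).coeff N) =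
    (((Polynomial.C (b^(N-k) * ((N.choose k : ℕ) : ℤ)) * (Polynomial.X + Polynomial.C a)^(2*k)) * Polynomial.X^(N-k) : Polynomial ℤ).coeff (k + (N-k))) by rw [← h3]]
  rw [Polynomial.coeff_mul_X_pow, Polynomial.coeff_C_mul, Polynomial.coeff_X_add_C_pow]
  rw [show 2*k-k = k by omega]
  ring

lemma swap (n : ℕ) (wt mu : ℕ → ℚ) : ∑ j ∈ range (n+1), wt j * ∑ k ∈ range (2*j+1), (((2*j).choose k : ℕ) : ℚ) * mu k =
    ∑ k ∈ range (2*n+1), mu k * ∑ j ∈ range (n+1), wt j * (((2*j).choose k : ℕ) : ℚ) := by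
  have h : ∀ j ∈ range (n+1), wt j * ∑ k ∈ range (2*j+1), (((2*j).choose k : ℕ) : ℚ) * mu k =
      ∑ k ∈ range (2*n+1), wt j * ((((2*j).choose k : ℕ) : ℚ) * mu k) := by
    intro j hj
    rw [mem_range] at hj
    rw [mul_sum]
    apply sum_subset
    · intro x hx; rw [mem_range] at *; omega
    · intro x _ hx
      rw [mem_range, not_lt] at hx
      rw [Nat.choose_eq_zero_of_lt (by omega)]; simp
  rw [sum_congr rfl h, sum_comm]
  apply sum_congr rfl
  intro i _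
  rw [mul_sum]
  apply sum_congr rfl
  intro j _; ring

lemma S_expand (n : ℕ) (al : ℚ) : S n al = ∑ j ∈ range (n+1), c j * ∑ k ∈ range (2*j+1), (((2*j).choose k : ℕ) : ℚ) * (e k * al^k) := by
  rw [swap]
  unfold S s g
  apply sum_congr rfl
  intro k _; ring

lemma Q_expand (n : ℕ) : Q n = ∑ j ∈ range (n+1), c j / ((j:ℚ)+1) * ∑ k ∈ range (2*j+1), (((2*j).choose k : ℕ) : ℚ) * e k := by
  rw [swap]
  rfl

/-- terms for `b = 2+2a`, `c = a²` -/
lemma T_even (j : ℕ) (a : ℤ) : (T (2*j) (2+2*a) (a^2) : ℚ) / 4^j =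
    ∑ k ∈ range (2*j+1), (((2*j).choose k : ℕ) : ℚ) * (e k * (a:ℚ)^k) := by
  rw [T_eq]
  push_cast
  rw [sum_div]
  apply sum_congr rfl
  intro k hk
  rw [mem_range] at hk
  have h1 : (4:ℚ)^j = 2^(2*j-k) * 2^k := by
    rw [← pow_add, show 2*j-k+k = 2*j by omega, pow_mul]; norm_num
  rw [h1]
  unfold e cB
  have h3 : (2:ℚ)^(2*j-k) ≠ 0 := by positivity
  have h4 : (2:ℚ)^k ≠ 0 := by positivity
  field_simp

lemma T_34 (j : ℕ) : (T (2*j) 3 4 : ℚ) =
    ∑ k ∈ range (2*j+1), (((2*j).choose k : ℕ) : ℚ) * (e k * (-4)^k) := by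
  have h := T_eq (2*j) 2 (-1)
  norm_num at h
  rw [h]
  push_cast
  apply sum_congr rfl
  intro k hk
  rw [mem_range] at hk
  unfold e cB
  have h1 : (-1:ℚ)^(2*j-k) = (-1)^k := by
    have e1 : (-1:ℚ)^(2*j-k) * (-1)^k = 1 := by
      rw [← pow_add, show 2*j-k+k = 2*j by omega, pow_mul]; norm_num
    have e2 := eps_sq k
    calc (-1:ℚ)^(2*j-k) = (-1:ℚ)^(2*j-k) * ((-1)^k * (-1)^k) := by rw [e2, mul_one]
      _ = ((-1:ℚ)^(2*j-k) * (-1)^k) * (-1)^k := by ring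
      _ = _ := by rw [e1, one_mul]
  have h2 : (-4:ℚ)^k = (-1)^k * (2^k * 2^k) := by rw [← mul_pow, ← mul_pow]; norm_num
  rw [h1, h2]
  have h4 : (2:ℚ)^k ≠ 0 := by positivity
  field_simp

lemma T_11 (j : ℕ) : (T j 1 1 : ℚ) / 3^j =
    ∑ k ∈ range (j+1), ((j.choose k : ℕ) : ℚ) * ((-1/3)^k * cB k) := by
  have h := T_eq j (-1) 3
  norm_num at h
  rw [h]
  push_cast
  rw [sum_div]
  apply sum_congr rfl
  intro k hk
  rw [mem_range] at hk
  unfold cB
  have h1 : (3:ℚ)^j = 3^(j-k) * 3^k := by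
    rw [← pow_add, show j-k+k = j by omega]
  have h2 : (-1/3:ℚ)^k = (-1)^k / 3^k := by rw [div_pow]
  rw [h1, h2]
  have h3 : (3:ℚ)^(j-k) ≠ 0 := by positivity
  have h4 : (3:ℚ)^k ≠ 0 := by positivity
  field_simp

lemma sum1 (n : ℕ) : ∑ j ∈ range (2*n+1), (T j 1 1 : ℚ) * (((2*j).choose j : ℕ) : ℚ) / 12^j =
    X n (fun i => (-1/3)^i * cB i) := by
  rw [X_eq]
  apply sum_congr rfl
  intro j _
  rw [← T_11]
  unfold c cB
  have : (12:ℚ)^j = 4^j * 3^j := by rw [← mul_pow]; norm_num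
  rw [this]
  have h3 : (3:ℚ)^j ≠ 0 := by positivity
  have h4 : (4:ℚ)^j ≠ 0 := by positivity
  field_simp

lemma sum2 (n : ℕ) (a : ℤ) : ∑ j ∈ range (n+1), (T (2*j) (2+2*a) (a^2) : ℚ) * (((2*j).choose j : ℕ) : ℚ) / 16^j =
    S n a := by
  rw [S_expand]
  apply sum_congr rfl
  intro j _
  rw [← T_even]
  unfold c cB
  have : (16:ℚ)^j = 4^j * 4^j := by rw [← mul_pow]; norm_num
  rw [this]
  have h4 : (4:ℚ)^j ≠ 0 := by positivity
  field_simp

lemma sum3 (n : ℕ) : ∑ j ∈ range (n+1), (T (2*j) 4 1 : ℚ) * ((((2*j).choose j : ℕ) : ℚ) / ((j:ℚ)+1)) / 16^j =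
    Q n := by
  rw [Q_expand]
  apply sum_congr rfl
  intro j _
  have h := T_even j 1
  norm_num at h
  rw [← h]
  unfold c cB
  have : (16:ℚ)^j = 4^j * 4^j := by rw [← mul_pow]; norm_num
  rw [this]
  have h4 : (4:ℚ)^j ≠ 0 := by positivity
  have h5 : ((j:ℚ)+1) ≠ 0 := by positivity
  field_simp

lemma sum4 (n : ℕ) : ∑ j ∈ range (n+1), (T (2*j) 3 4 : ℚ) * (((2*j).choose j : ℕ) : ℚ) / 4^j =
    S n (-4) := by
  rw [S_expand]
  apply sum_congr rfl
  intro j _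
  rw [← T_34]
  unfold c cB
  ring

section
variable {p : ℕ} [hp : Fact p.Prime] {n : ℕ}

lemma not_one_J1 : (1:ℚ) ∉ J p 1 := by
  intro h
  have := J_num h
  rw [pow_one] at this
  have h2 : (p:ℤ) ∣ 1 := this
  have := Int.eq_one_of_dvd_one (by positivity) h2
  have h3 := hp.out.one_lt
  omega

lemma pm_eq (hn : 2*n+1 = p) (h2 : 2 ≤ n) {x y : ℚ} (hx : x = 1 ∨ x = -1) (hy : y = 1 ∨ y = -1)
    (h : x - y ∈ J p 1) : x = y := by
  have h22 : ¬ p ∣ 2 := ndvd hn (by omega) (by omega)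
  rcases hx with rfl | rfl <;> rcases hy with rfl | rfl
  · rfl
  · exfalso
    apply not_one_J1 (p := p)
    apply unit_cancel (b := 2) h22
    convert h using 1; push_cast; ring
  · exfalso
    apply not_one_J1 (p := p)
    apply unit_cancel (b := 2) h22
    have := neg_mem h
    convert this using 1; push_cast; ring
  · rfl

lemma leg_eq (hn : 2*n+1 = p) (h2 : 2 ≤ n) (a : ℤ) (ha : (a : ZMod p) ≠ 0) {x : ℚ} (hx : x = 1 ∨ x = -1)
    (h : (a:ℚ)^n - x ∈ J p 1) : (legendreSym p a : ℚ) = x := by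
  have h1 := legendreSym.eq_pow p a
  rw [show p/2 = n by omega] at h1
  have h3 : ((legendreSym p a : ℤ) : ZMod p) = ((a^n : ℤ) : ZMod p) := by rw [h1]; push_cast; rfl
  rw [ZMod.intCast_eq_intCast_iff_dvd_sub] at h3
  obtain ⟨z, hz⟩ := h3
  have h4 : (a:ℚ)^n - (legendreSym p a : ℚ) ∈ J p 1 := by
    refine ⟨(z:ℚ), int_mem z, ?_⟩
    rw [pow_one]
    exact_mod_cast hz
  have h5 : (legendreSym p a : ℚ) = 1 ∨ (legendreSym p a : ℚ) = -1 := by
    rcases legendreSym.eq_one_or_neg_one p ha with h | h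
    · left; rw [h]; norm_num
    · right; rw [h]; norm_num
  apply pm_eq hn h2 h5 hx
  have := sub_mem h h4
  convert this using 1
  ring

lemma leg_m1 (hn : 2*n+1 = p) (h2 : 2 ≤ n) : (legendreSym p (-1) : ℚ) = (-1)^n := by
  apply leg_eq hn h2
  · rw [Int.cast_neg, Int.cast_one, neg_ne_zero]
    have := hp.out.one_lt
    haveI : Fact (1 < p) := ⟨this⟩
    exact one_ne_zero
  · exact neg_one_pow_eq_or ℚ n
  · convert zero_mem (J p 1) using 1
    push_cast; ring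

lemma leg_3 (hn : 2*n+1 = p) (h2 : 2 ≤ n) : (legendreSym p 3 : ℚ) = (-1)^n * eps3 n := by
  apply leg_eq hn h2
  · intro h
    have h3 : ((3:ℕ) : ZMod p) = 0 := by exact_mod_cast h
    rw [ZMod.natCast_eq_zero_iff] at h3
    exact ndvd hn (by omega) (show 3 ≤ 2*n by omega) h3
  · unfold eps3
    rcases neg_one_pow_eq_or ℚ n with h | h <;> rw [h] <;> split_ifs <;> simp
  · have := zmul (m3_eps hn h2) (m1_mem (p := p) n)
    convert this using 1
    have : (3:ℚ)^n = (-1)^n * (-3)^n := by rw [← mul_pow]; norm_num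
    push_cast
    rw [this]; ring

end

end Pool.Agent.V11304.TB
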