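import Pool.Agent.V11304.TB.Rec

set_option autoImplicit false

namespace Pool.Agent.V11304.TB

open Finset Pool.Agent.V11304.SC

def G (N i : ℕ) : ℚ := ∑ j ∈ range (N+1), c j * (j.choose i : ℕ)

lemma G_eq (N i : ℕ) : (2*(i:ℚ)+1) * G N i = (2*N+1) * c N * (N.choose i : ℕ) := by
  induction N with
  | zero =>
    unfold G
    rw [zero_add, sum_range_one, c_zero]
    cases i with
    | zero => norm_num
    | succ i => simp
  | succ N ih =>
    unfold G at ih ⊢
    rw [sum_range_succ, mul_add, ih]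
    have h1 := c_succ N
    have h2 := chm N i
    push_cast
    linear_combination -((N.choose i : ℕ) : ℚ) * h1 + 2 * c (N+1) * h2

/-- the central constant -/
def kap (n : ℕ) : ℚ := 2 * c (2*n+1)

lemma kap_eq (n : ℕ) : (2*n+1) * kap n = (4*n+1) * c (2*n) := by
  unfold kap
  have := c_succ (2*n)
  push_cast at this
  linear_combination this

def X (n : ℕ) (lam : ℕ → ℚ) : ℚ := ∑ i ∈ range (2*n+1), lam i * G (2*n) i

lemma X_eq (n : ℕ) (lam : ℕ → ℚ) : X n lam =
    ∑ j ∈ range (2*n+1), c j * ∑ i ∈ range (j+1), (j.choose i : ℕ) * lam i := by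
  unfold X G
  have h : ∀ j ∈ range (2*n+1), c j * ∑ i ∈ range (j+1), ((j.choose i : ℕ):ℚ) * lam i =
      ∑ i ∈ range (2*n+1), c j * (((j.choose i : ℕ):ℚ) * lam i) := by
    intro j hj
    rw [mem_range] at hj
    rw [mul_sum]
    apply sum_subset
    · intro x hx; rw [mem_range] at *; omega
    · intro x _ hx
      rw [mem_range, not_lt] at hx
      rw [Nat.choose_eq_zero_of_lt (by omega)]; simp
  rw [sum_congr rfl h, sum_comm]
  apply sum_congr rfl
  intro i _
  rw [mul_sum]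
  apply sum_congr rfl
  intro j _; ring

section
variable {p : ℕ} [hp : Fact p.Prime] {n : ℕ}

lemma cB_p (hn : 2*n+1 = p) : cB (2*n+1) - 2 ∈ J p 2 := by
  have h := Nat.sum_range_choose_sq (2*n+1)
  have h2 : cB (2*n+1) = ∑ i ∈ range (2*n+1+1), (((2*n+1).choose i : ℕ) : ℚ)^2 := by
    unfold cB
    rw [← h]; push_cast; rfl
  rw [h2, sum_range_succ, sum_range_succ']
  have h3 : ∑ i ∈ range (2*n), (((2*n+1).choose (i+1) : ℕ) : ℚ)^2 ∈ J p 2 := by
    apply sum_mem
    intro i hi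
    rw [mem_range] at hi
    rw [pow_two]
    exact J1sq (choose_J1 hn (by omega)) (choose_J1 hn (by omega))
  convert h3 using 1
  rw [Nat.choose_self, Nat.choose_zero_right]
  push_cast; ring

lemma kap_mem (hn : 2*n+1 = p) (h2 : 2 ≤ n) : kap n ∈ Z p := mul_mem (nat_mem 2) (c_mem hn h2 _)

lemma kap2 (hn : 2*n+1 = p) (h2 : 2 ≤ n) : kap n - (1 - 2 * ((4:ℚ)^n - 1)) ∈ J p 2 := by
  have ha := a_mem hn h2
  have hcb := cB_p hn
  apply unit_cancel (b := 4^n) (four_unit hn h2)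
  apply unit_cancel (b := 4^n) (four_unit hn h2)
  apply unit_cancel (b := 2) (ndvd hn (by omega) (by omega))
  have haa := J1sq ha ha
  have h3 := add_mem hcb (zmul haa (add_mem (nat_mem (p := p) 6) (mul_mem (nat_mem 4) (J_Z ha))))
  convert h3 using 1
  unfold kap c
  have e1 : (4:ℚ)^(2*n+1) = 4 * (4^n * 4^n) := by rw [pow_succ, two_mul, pow_add]; ring
  rw [e1]
  have h4 : (4:ℚ)^n ≠ 0 := by positivity
  push_cast
  field_simp
  ring

lemma kap1 (hn : 2*n+1 = p) (h2 : 2 ≤ n) : kap n - 1 ∈ J p 1 := by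
  have h := J_anti (show 1 ≤ 2 by norm_num) (kap2 hn h2)
  have ha := a_mem hn h2
  have := sub_mem h (add_mem ha ha)
  convert this using 1
  ring

lemma G_n (n : ℕ) : G (2*n) n = kap n * cB n := by
  have h := G_eq (2*n) n
  have h1 := kap_eq n
  have h3 : (2*(n:ℚ)+1) ≠ 0 := by positivity
  apply mul_left_cancel₀ h3
  rw [h]
  unfold cB
  push_cast
  linear_combination -(((2*n).choose n : ℕ) : ℚ) * h1

lemma G_ne (hn : 2*n+1 = p) (h2 : 2 ≤ n) {i : ℕ} (hi : i ≤ 2*n) (hin : i ≠ n) :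
    G (2*n) i - p * ((-1)^i * bq n i) ∈ J p 2 := by
  have h := G_eq (2*n) i
  have h1 := kap_eq n
  have hb : G (2*n) i = p * (kap n * ((2*n).choose i : ℕ) * bq n i) := by
    unfold bq
    rw [if_neg hin, ← pcast hn]
    have : (2*(i:ℚ)+1) ≠ 0 := by positivity
    field_simp
    push_cast at h
    linear_combination h - (((2*n).choose i : ℕ) : ℚ) * h1
  rw [hb]
  have h3 := cong_mul (kap1 hn h2) (ch1 hn i hi) (kap_mem hn h2) (m1_mem i)
  have h4 := pJ2 (J_mul_Z (bq_mem hn (by omega) (show i ≤ 2*n+1 by omega)) h3)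
  convert h4 using 1
  ring

lemma X_cong (hn : 2*n+1 = p) (h2 : 2 ≤ n) (lam : ℕ → ℚ) (hl : ∀ i, lam i ∈ Z p) :
    X n lam - (lam n * (kap n * cB n) + p * ∑ i ∈ range (2*n+1), (-1)^i * bq n i * lam i) ∈ J p 2 := by
  have h1 : ∑ i ∈ range (2*n+1), (G (2*n) i - p * ((-1)^i * bq n i) - (if i = n then kap n * cB n else 0)) * lam i ∈ J p 2 := by
    apply sum_mem
    intro i hi
    rw [mem_range] at hi
    apply J_mul_Z (hl i)
    by_cases hin : i = n
    · subst hin
      rw [if_pos rfl, G_n]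
      unfold bq
      rw [if_pos rfl]
      convert zero_mem (J p 2) using 1
      ring
    · rw [if_neg hin, sub_zero]
      exact G_ne hn h2 (by omega) hin
  have h4 : ∑ k ∈ range (2*n+1), (if k = n then kap n * cB n else 0) * lam k = kap n * cB n * lam n := by
    rw [sum_eq_single n]
    · rw [if_pos rfl]
    · intro b _ hb; rw [if_neg hb, zero_mul]
    · intro h; exfalso; apply h; rw [mem_range]; omega
  convert h1 using 1
  unfold X
  simp only [sub_mul]
  rw [sum_sub_distrib, sum_sub_distrib, h4, mul_sum]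
  have e1 : ∑ i ∈ range (2*n+1), lam i * G (2*n) i = ∑ i ∈ range (2*n+1), G (2*n) i * lam i :=
    sum_congr rfl fun i _ => mul_comm _ _
  have e2 : ∑ i ∈ range (2*n+1), (p:ℚ) * ((-1)^i * bq n i * lam i) = ∑ i ∈ range (2*n+1), p * ((-1)^i * bq n i) * lam i :=
    sum_congr rfl fun i _ => by ring
  rw [e1, e2]; ring

/-- `V₀` -/
def V0 (n : ℕ) : ℚ := ∑ k ∈ range (2*n+1), (-1)^k * e k

lemma V0_cong (hn : 2*n+1 = p) (h2 : 2 ≤ n) : V0 n - (3^n + p * B n 3) ∈ J p 2 := by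
  have hX := X_cong hn h2 (fun i => (-3)^i) (fun i => pow_mem (neg_mem (nat_mem (p := p) 3)) i)
  rw [X_eq] at hX
  have e1 : ∑ j ∈ range (2*n+1), c j * ∑ i ∈ range (j+1), ((j.choose i : ℕ):ℚ) * (-3)^i = V0 n := by
    unfold V0
    apply sum_congr rfl
    intro j _
    have : ∑ i ∈ range (j+1), ((j.choose i : ℕ):ℚ) * (-3)^i = (-2)^j := by
      rw [show (-2:ℚ) = -3 + 1 by norm_num, add_pow]
      apply sum_congr rfl
      intro i _; rw [one_pow]; ring
    rw [this]
    unfold c e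
    have e3 : (-2:ℚ)^j = (-1)^j * 2^j := by rw [← mul_pow]; norm_num
    have e4 : (4:ℚ)^j = 2^j * 2^j := by rw [← mul_pow]; norm_num
    rw [e3, e4]
    have : (2:ℚ)^j ≠ 0 := by positivity
    field_simp
  have e2 : ∑ i ∈ range (2*n+1), (-1)^i * bq n i * (-3)^i = B n 3 := by
    unfold B
    apply sum_congr rfl
    intro i _
    have : (3:ℚ)^i = (-1)^i * (-3)^i := by rw [← mul_pow]; norm_num
    rw [this]; ring
  rw [e1, e2] at hX
  have hk := kap2 hn h2
  have hm := morley hn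
  have ha := a_mem hn h2
  have h3 := cong_mul hk hm (kap_mem hn h2)
    (mul_mem (m1_mem n) (add_mem (one_mem _) (mul_mem (nat_mem 2) (J_Z ha))))
  have h3' := add_mem h3 (zmul (J1sq ha ha) (mul_mem (m1_mem (p := p) n) (neg_mem (nat_mem 4))))
  have h4 := zmul h3' (pow_mem (neg_mem (nat_mem (p := p) 3)) n)
  have h5 := add_mem hX h4
  convert h5 using 1
  have e5 : (3:ℚ)^n = (-1)^n * (-3)^n := by rw [← mul_pow]; norm_num
  rw [e5]
  push_cast
  ring

/-- the sum of `C(2i,i)/(3^i(2i+1))` -/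
lemma B3_cong (hn : 2*n+1 = p) (h2 : 2 ≤ n) :
    p * ∑ i ∈ range (2*n+1), (-1)^i * bq n i * ((-1/3)^i * cB i) +
      1/2 * (-4/3)^n * (4 * ((4:ℚ)^n - 1) - 3/2 * (9^n - 1)) ∈ J p 2 := by
  have hth := third_mem hn h2
  have hhf := half_mem hn h2
  have hL := sub_mem (L_quarter hn h2) (L_one hn)
  have hD := Dl (-3/4) n
  have h4 : ∑ l ∈ range n, ((1+(-3/4):ℚ)^(l+1) - 1)/((l:ℚ)+1) = L n (1/4) - L n 1 := by
    unfold L
    rw [← sum_sub_distrib]
    apply sum_congr rfl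
    intro l _
    norm_num
    ring
  rw [h4] at hD
  -- reduce mod p
  have s1 : ∑ i ∈ range (2*n+1), (-1)^i * bq n i * ((-1/3)^i * cB i) -
      ∑ i ∈ range (2*n+1), bq n i * (-4/3)^i * ((n.choose i : ℕ) : ℚ) ∈ J p 1 := by
    rw [← sum_sub_distrib]
    apply sum_mem
    intro i hi
    rw [mem_range] at hi
    have := zmul (cb1 hn i (by omega)) (mul_mem (bq_mem hn (by omega) (show i ≤ 2*n+1 by omega)) (pow_mem hth i))
    convert this using 1
    have e1 : (-1/3:ℚ)^i = (-1)^i * (1/3)^i := by rw [← mul_pow]; norm_num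
    have e2 : (-4/3:ℚ)^i = (-4)^i * (1/3)^i := by rw [← mul_pow]; norm_num
    have e3 := eps_sq i
    rw [e1, e2]
    linear_combination bq n i * (1/3)^i * cB i * e3
  -- reflect
  have s2 : ∑ i ∈ range (2*n+1), bq n i * (-4/3)^i * ((n.choose i : ℕ) : ℚ) =
      ∑ j ∈ range n, bq n (n-1-j) * (-4/3)^(n-1-j) * ((n.choose (j+1) : ℕ) : ℚ) := by
    have e1 : ∑ i ∈ range (2*n+1), bq n i * (-4/3)^i * ((n.choose i : ℕ) : ℚ) =
        ∑ i ∈ range n, bq n i * (-4/3)^i * ((n.choose i : ℕ) : ℚ) := by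
      symm
      apply sum_subset
      · intro x hx; rw [mem_range] at *; omega
      · intro x _ hx
        rw [mem_range, not_lt] at hx
        rcases eq_or_lt_of_le hx with h | h
        · unfold bq; rw [if_pos h.symm]; ring
        · rw [Nat.choose_eq_zero_of_lt h]; simp
    rw [e1, ← sum_range_reflect]
    apply sum_congr rfl
    intro j hj
    rw [mem_range] at hj
    have : n.choose (n-1-j) = n.choose (j+1) := by
      rw [← Nat.choose_symm (show j+1 ≤ n by omega)]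
      congr 1; omega
    rw [this]
  have s3 : ∑ j ∈ range n, bq n (n-1-j) * (-4/3)^(n-1-j) * ((n.choose (j+1) : ℕ) : ℚ) +
      1/2 * (-4/3)^n * ∑ s ∈ range n, ((n.choose (s+1) : ℕ) : ℚ) * (-3/4)^(s+1)/((s:ℚ)+1) ∈ J p 1 := by
    rw [mul_sum, ← sum_add_distrib]
    apply sum_mem
    intro j hj
    rw [mem_range] at hj
    have hpc := pcast hn
    have hb1m := bq_mem hn (by omega) (show n-1-j ≤ 2*n+1 by omega)
    have hi := inv_mem' hn (show j + 1 ≤ 2*n by omega)
    have hb1 : bq n (n-1-j) = 1/(p - 2*((j:ℚ)+1)) := by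
      unfold bq
      rw [if_neg (by omega), Nat.cast_sub (by omega), Nat.cast_sub (by omega), ← hpc]
      push_cast
      congr 1; ring
    have n2 : (p:ℚ) - 2*((j:ℚ)+1) ≠ 0 := by
      rw [← hpc]
      have : ((2*n+1:ℕ):ℤ) - 2*((j:ℤ)+1) ≠ 0 := by push_cast; omega
      intro h
      apply this
      push_cast at h ⊢
      exact_mod_cast h
    have n1 : ((j:ℚ)+1) ≠ 0 := by positivity
    have h43 : (-4/3:ℚ) ∈ Z p := by
      have := mul_mem (neg_mem (nat_mem (p := p) 4)) hth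
      convert this using 1
      norm_num
    have k1 : (p:ℚ) * (bq n (n-1-j) * (1/2 * (1/((j:ℚ)+1))) * ((-4/3)^(n-1-j) * ((n.choose (j+1) : ℕ) : ℚ))) ∈ J p 1 :=
      pJ1 (mul_mem (mul_mem hb1m (mul_mem hhf hi)) (mul_mem (pow_mem h43 _) (nat_mem _)))
    convert k1 using 1
    have e1 : (-4/3:ℚ)^n * (-3/4)^(j+1) = (-4/3)^(n-1-j) := by
      have : (-4/3:ℚ)^n = (-4/3)^(n-1-j) * (-4/3)^(j+1) := by rw [← pow_add]; congr 1; omega
      rw [this, mul_assoc, ← mul_pow]; norm_num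
    have e2 : bq n (n-1-j) + 1/2 * (1/((j:ℚ)+1)) = p * (bq n (n-1-j) * (1/2 * (1/((j:ℚ)+1)))) := by
      rw [hb1]; field_simp; ring
    linear_combination (-4/3)^(n-1-j) * ((n.choose (j+1) : ℕ) : ℚ) * e2 +
      1/2 * ((n.choose (j+1) : ℕ) : ℚ) * (1/((j:ℚ)+1)) * e1
  rw [← s2] at s3
  have h43 : (-4/3:ℚ)^n ∈ Z p := by
    apply pow_mem
    have := mul_mem (neg_mem (nat_mem (p := p) 4)) hth
    convert this using 1
    norm_num
  have t1 := pJ2 (add_mem s1 s3)
  have t2 := zmul hL (mul_mem hhf h43)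
  have t3 := sub_mem t1 t2
  convert t3 using 1
  rw [hD]; ring

/-- (1) -/
lemma X_one (hn : 2*n+1 = p) (h2 : 2 ≤ n) :
    X n (fun i => (-1/3)^i * cB i) - (3 + 9^n)/4 * eps3 n ∈ J p 2 := by
  have hth := third_mem hn h2
  have h13 : (-1/3:ℚ) ∈ Z p := by
    rw [neg_div]; exact neg_mem hth
  have hX := X_cong hn h2 (fun i => (-1/3)^i * cB i) (fun i => mul_mem (pow_mem h13 i) (nat_mem _))
  have hB := B3_cong hn h2
  have hk := kap2 hn h2
  have hm := morley hn
  have ha := a_mem hn h2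
  have hb := b_mem hn h2
  have hhf := half_mem hn h2
  have haa := J1sq ha ha
  have hab := J1sq ha hb
  have hbb := J1sq hb hb
  have hcB : cB n ∈ Z p := nat_mem _
  have h1a : (1 + 2 * ((4:ℚ)^n - 1)) ∈ Z p := add_mem (one_mem _) (mul_mem (nat_mem 2) (J_Z ha))
  -- cB^2 ≡ (1+2a)^2
  have hc2 := cong_mul hm hm hcB (mul_mem (m1_mem n) h1a)
  have hkc := cong_mul hk hc2 (kap_mem hn h2) (mul_mem (mul_mem (m1_mem n) h1a) (mul_mem (m1_mem n) h1a))
  -- main term
  have hmain : (-1/3:ℚ)^n * (kap n * (cB n * cB n)) - (-1/3)^n * (1 + 2 * ((4:ℚ)^n - 1)) ∈ J p 2 := by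
    have h3 := zmul haa (neg_mem (mul_mem (nat_mem (p := p) 4) (add_mem (one_mem _) (mul_mem (nat_mem 2) (J_Z ha)))))
    have h4 := zmul (add_mem hkc h3) (pow_mem h13 n)
    convert h4 using 1
    have e2 := eps_sq n
    push_cast
    linear_combination (-1/3)^n * (1 - 2 * ((4:ℚ)^n - 1)) * (1 + 2 * ((4:ℚ)^n - 1))^2 * e2
  -- (-4/3)^n
  have e43 : (-4/3:ℚ)^n = (-1/3)^n * 4^n := by rw [← mul_pow]; norm_num
  rw [e43] at hB
  have hq : (1/8:ℚ) ∈ Z p := by
    have := mul_mem hhf (quarter_mem hn h2)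
    convert this using 1
    norm_num
  -- total ≡ (-1/3)^n (1 + 3/4 b)
  have ht : X n (fun i => (-1/3)^i * cB i) - (-1/3)^n * (1 + 3/4 * ((9:ℚ)^n - 1)) ∈ J p 2 := by
    have h5 := add_mem (add_mem hX hmain) hB
    have h6 := add_mem (zmul haa (neg_mem (mul_mem (nat_mem (p := p) 2) (pow_mem h13 n))))
      (zmul hab (mul_mem (mul_mem (nat_mem (p := p) 3) (quarter_mem hn h2)) (pow_mem h13 n)))
    have h7 := add_mem h5 h6
    convert h7 using 1
    push_cast
    ring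
  -- multiply by (-3)^n : (−3)^n(3+9^n)/4 eps3 vs 1 + 3/4 b
  have hm3 := m3_eps hn h2
  have hm33 := J1sq hm3 hm3
  have heps : eps3 n ∈ Z p := by unfold eps3; split_ifs; exacts [one_mem _, neg_mem (one_mem _)]
  have he2 := eps3_sq n
  have e9 : (9:ℚ)^n = (-3)^n * (-3)^n := by rw [← mul_pow]; norm_num
  have e1 : (-1/3:ℚ)^n * (-3)^n = 1 := by rw [← mul_pow]; norm_num
  -- let t = (-3)^n eps3 ; 9^n = t^2 ; t - 1 ∈ J1
  have htm : (-3)^n * eps3 n - 1 ∈ J p 1 := by
    have := J_mul_Z heps hm3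
    convert this using 1
    linear_combination he2
  have htt := J1sq htm htm
  have h8 : (-1/3:ℚ)^n * (1 + 3/4 * ((9:ℚ)^n - 1)) - (3 + 9^n)/4 * eps3 n ∈ J p 2 := by
    have h9 := zmul htt (mul_mem (pow_mem h13 n) (mul_mem (quarter_mem hn h2)
      (sub_mem (one_mem _) (mul_mem heps (pow_mem (neg_mem (nat_mem (p := p) 3)) n)))))
    convert h9 using 1
    push_cast
    rw [e9]
    generalize (-3:ℚ)^n = T at *
    generalize (-1/3:ℚ)^n = U at *
    generalize eps3 n = ep at *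
    linear_combination (-3/4 * U * T^2 + 1/4 * T^2 * ep) * he2 + (3/4 * ep + 1/4 * T^2 * ep^3) * e1
  have := add_mem ht h8
  convert this using 1
  ring

end

end Pool.Agent.V11304.TB
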