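import Pool.Agent.V11304.TB.Base

set_option autoImplicit false

namespace Pool.Agent.V11304.TB

open Finset Pool.Agent.V11304.SC

def g (N k : ℕ) : ℚ := ∑ j ∈ range (N+1), c j * ((2*j).choose k : ℕ)

lemma g_succ (N k : ℕ) : g (N+1) k = g N k + c (N+1) * ((2*(N+1)).choose k : ℕ) := by
  unfold g; rw [sum_range_succ]

lemma g_zero (N : ℕ) : g N 0 = (2*N+1) * c N := by
  induction N with
  | zero => simp [g]
  | succ N ih =>
    rw [g_succ, ih, Nat.choose_zero_right]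
    have := c_succ N
    push_cast
    linear_combination -this

lemma g_rec (N k : ℕ) : ((k:ℚ)+1) * g N k + (2*k+3) * g N (k+1) =
    (2*N+1) * c N * ((2*N+1).choose (k+1) : ℕ) := by
  induction N with
  | zero =>
    unfold g
    rw [zero_add, sum_range_one, sum_range_one, c_zero]
    cases k with
    | zero => norm_num
    | succ k => simp
  | succ N ih =>
    rw [g_succ, g_succ]
    have h1 := c_succ N
    have h2 := chp (2*N+1) k
    have h2' := chp (2*N+1+1) k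
    have h3 := chm (2*N+1) (k+1)
    have h4 := chs (2*N+1+1) k
    have h5 := chp (2*N+1+1) k
    rw [show 2*(N+1) = 2*N+1+1 by ring]
    push_cast at ih h1 h2 h3 h4 h5 ⊢
    linear_combination ih - (((2*N+1).choose (k+1) : ℕ) : ℚ) * h1 + c (N+1) * h3 + c (N+1) * h4
      - (2*(N:ℚ)+3) * c (N+1) * h5

def w (n k : ℕ) : ℚ := (2*k+1) * e k * g n k
def s (n k : ℕ) : ℚ := e k * g n k

lemma w_succ (n k : ℕ) : w n (k+1) + w n k = (2*n+1) * c n * ((2*n+1).choose (k+1) : ℕ) * e (k+1) := by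
  unfold w
  have h1 := g_rec n k
  have h2 := e_succ k
  push_cast
  linear_combination e (k+1) * h1 - g n k * h2

lemma w_zero (n : ℕ) : w n 0 = (2*n+1) * c n := by
  unfold w; rw [g_zero, e_zero]; push_cast; ring

lemma w_exact (n k : ℕ) : w n k = (-1)^k * ((2*n+1) * c n) *
    ∑ m ∈ range (k+1), (-1)^m * (((2*n+1).choose m : ℕ) : ℚ) * e m := by
  induction k with
  | zero => rw [w_zero]; simp [e_zero]
  | succ k ih =>
    have h := w_succ n k
    rw [sum_range_succ, mul_add]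
    have h2 : w n (k+1) = (2*n+1) * c n * ((2*n+1).choose (k+1) : ℕ) * e (k+1) - w n k := by linarith
    rw [h2, ih]
    have e2 := eps_sq (k+1)
    rw [pow_succ] at e2 ⊢
    linear_combination -(2*n+1) * c n * (((2*n+1).choose (k+1) : ℕ) : ℚ) * e (k+1) * e2

lemma s_n (n : ℕ) : s n n = (-1)^n * c n * ∑ m ∈ range (n+1), (-1)^m * (((2*n+1).choose m : ℕ) : ℚ) * e m := by
  have h := w_exact n n
  have h2 : w n n = (2*n+1) * s n n := by unfold w s; ring
  rw [h2] at h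
  have h3 : (2*(n:ℚ)+1) ≠ 0 := by positivity
  apply mul_left_cancel₀ h3
  rw [h]; ring

def S (n : ℕ) (al : ℚ) : ℚ := ∑ k ∈ range (2*n+1), s n k * al^k
def B (n : ℕ) (x : ℚ) : ℚ := ∑ k ∈ range (2*n+1), bq n k * x^k

section
variable {p : ℕ} [hp : Fact p.Prime] {n : ℕ}

lemma e_mem (hn : 2*n+1 = p) (h2 : 2 ≤ n) (k : ℕ) : e k ∈ Z p := by
  unfold e cB
  rw [div_eq_mul_inv, ← inv_pow]
  have := half_mem hn h2
  rw [one_div] at this
  exact mul_mem (nat_mem _) (pow_mem this _)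

lemma c_mem (hn : 2*n+1 = p) (h2 : 2 ≤ n) (k : ℕ) : c k ∈ Z p := by
  unfold c cB
  rw [div_eq_mul_inv, ← inv_pow]
  have := quarter_mem hn h2
  rw [one_div] at this
  exact mul_mem (nat_mem _) (pow_mem this _)

lemma g_mem (hn : 2*n+1 = p) (h2 : 2 ≤ n) (N k : ℕ) : g N k ∈ Z p :=
  sum_mem fun j _ => mul_mem (c_mem hn h2 j) (nat_mem _)

lemma m1_mem (k : ℕ) : (-1:ℚ)^k ∈ Z p := pow_mem (neg_mem (one_mem _)) k

lemma pcast (hn : 2*n+1 = p) : 2*(n:ℚ)+1 = p := by rw [← hn]; push_cast; ring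

lemma choose_J1 (hn : 2*n+1 = p) {k : ℕ} (hk : k + 1 ≤ 2*n) : (((2*n+1).choose (k+1) : ℕ) : ℚ) ∈ J p 1 := by
  have h := J_anti (show 1 ≤ 2 by norm_num) (ch_p2 hn k hk)
  have h2 : (p:ℚ) * ((-1)^k/((k:ℚ)+1)) ∈ J p 1 := by
    apply pJ1
    rw [div_eq_mul_one_div]
    exact mul_mem (m1_mem k) (inv_mem' hn hk)
  have := add_mem h h2
  rwa [sub_add_cancel] at this

lemma w_cong0 (hn : 2*n+1 = p) (h2 : 2 ≤ n) {k : ℕ} (hk : k ≤ 2*n) : w n k - (-1)^k * (p * c n) ∈ J p 2 := by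
  induction k with
  | zero =>
    rw [w_zero, pcast hn]
    simp only [pow_zero, one_mul, sub_self]; exact zero_mem _
  | succ k ih =>
    have ih := ih (by omega)
    have h := w_succ n k
    rw [pcast hn] at h
    have h3 : (p:ℚ) * ((((2*n+1).choose (k+1) : ℕ) : ℚ) * (c n * e (k+1))) ∈ J p 2 :=
      pJ2 (J_mul_Z (mul_mem (c_mem hn h2 n) (e_mem hn h2 _)) (choose_J1 hn hk))
    have := sub_mem h3 ih
    convert this using 1
    rw [pow_succ]
    linear_combination h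

lemma w_cong (hn : 2*n+1 = p) (h2 : 2 ≤ n) {k : ℕ} (hk : k ≤ 2*n) : w n k - p * ((-1)^k * (-1)^n) ∈ J p 2 := by
  have h := w_cong0 hn h2 hk
  have h3 := zmul (pJ2 (beta1 hn h2)) (m1_mem (p := p) k)
  have := add_mem h h3
  convert this using 1
  ring

lemma s_ne (hn : 2*n+1 = p) (h2 : 2 ≤ n) {k : ℕ} (hk : k ≤ 2*n) (hkn : k ≠ n) :
    s n k - p * ((-1)^k * (-1)^n * bq n k) ∈ J p 2 := by
  apply unit_cancel (ndvd_odd hn (by omega) (show k ≤ 2*n+1 by omega) hkn)
  have h := w_cong hn h2 hk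
  convert h using 1
  unfold w s bq
  rw [if_neg hkn]
  have : (2*(k:ℚ)+1) ≠ 0 := by positivity
  push_cast
  field_simp

lemma cong_A (hn : 2*n+1 = p) (h2 : 2 ≤ n) :
    p * (∑ m ∈ range n, e (m+1) * (1/((m:ℚ)+1))) - ((4:ℚ)^n - 1) ∈ J p 2 := by
  have h1 := L_m1 hn
  have h3 := L_one hn
  have hD := Dl (-2) n
  have h4 : ∑ l ∈ range n, ((1+(-2):ℚ)^(l+1) - 1)/((l:ℚ)+1) = L n (-1) - L n 1 := by
    unfold L
    rw [← sum_sub_distrib]
    apply sum_congr rfl
    intro l _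
    norm_num
    ring
  rw [h4] at hD
  have h5 : ∑ m ∈ range n, e (m+1) * (1/((m:ℚ)+1)) - (L n (-1) - L n 1) ∈ J p 1 := by
    rw [← hD, ← sum_sub_distrib]
    apply sum_mem
    intro m hm
    rw [mem_range] at hm
    have h6 := cb1 hn (m+1) (by omega)
    have h7 := zmul h6 (mul_mem (pow_mem (half_mem hn h2) (m+1)) (inv_mem' hn (show m+1 ≤ 2*n by omega)))
    convert h7 using 1
    unfold e
    have e1 : (-2:ℚ)^(m+1) = (1/2)^(m+1) * (-4)^(m+1) := by rw [← mul_pow]; norm_num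
    have e2 : cB (m+1) / 2^(m+1) = (1/2)^(m+1) * cB (m+1) := by
      rw [div_pow, one_pow]; ring
    rw [e1, e2]
    ring
  have h8 := add_mem (pJ2 h5) (sub_mem h1 h3)
  convert h8 using 1
  ring

lemma s_n1 (hn : 2*n+1 = p) (h2 : 2 ≤ n) : s n n - 1 ∈ J p 2 := by
  rw [s_n]
  have hb := beta2 hn h2
  have ha := a_mem hn h2
  have hA := cong_A hn h2
  have h1 : ∑ m ∈ range (n+1), (-1)^m * (((2*n+1).choose m : ℕ) : ℚ) * e m - (1 - ((4:ℚ)^n - 1)) ∈ J p 2 := by
    rw [sum_range_succ']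
    have h3 : ∑ m ∈ range n, ((-1)^(m+1) * (((2*n+1).choose (m+1) : ℕ) : ℚ) * e (m+1) +
        p * (e (m+1) * (1/((m:ℚ)+1)))) ∈ J p 2 := by
      apply sum_mem
      intro m hm
      rw [mem_range] at hm
      have h4 := ch_p2 hn m (by omega)
      have h5 := zmul h4 (mul_mem (m1_mem (m+1)) (e_mem hn h2 (m+1)))
      convert h5 using 1
      have e2 := eps_sq m
      rw [pow_succ]
      linear_combination (-(p:ℚ) * (e (m+1) * (1/((m:ℚ)+1)))) * e2
    rw [sum_add_distrib, ← mul_sum] at h3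
    have h6 := sub_mem h3 hA
    convert h6 using 1
    rw [pow_zero, Nat.choose_zero_right, e_zero]; push_cast; ring
  have h7 := cong_mul hb h1 (mul_mem (m1_mem n) (c_mem hn h2 n))
    (sub_mem (one_mem _) (J_Z ha))
  have h8 := sub_mem h7 (J1sq ha ha)
  convert h8 using 1
  ring

lemma S_cong (hn : 2*n+1 = p) (h2 : 2 ≤ n) {al : ℚ} (hal : al ∈ Z p) :
    S n al - (al^n + p * ((-1)^n * B n (-al))) ∈ J p 2 := by
  have h1 : ∑ k ∈ range (2*n+1), (s n k - p * ((-1)^k * (-1)^n * bq n k) - (if k = n then s n n else 0)) * al^k ∈ J p 2 := by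
    apply sum_mem
    intro k hk
    rw [mem_range] at hk
    apply J_mul_Z (pow_mem hal k)
    by_cases hkn : k = n
    · subst hkn
      rw [if_pos rfl]
      unfold bq
      rw [if_pos rfl]
      convert zero_mem (J p 2) using 1
      ring
    · rw [if_neg hkn, sub_zero]
      exact s_ne hn h2 (by omega) hkn
  have h3 : ∑ k ∈ range (2*n+1), (s n k - p * ((-1)^k * (-1)^n * bq n k) - (if k = n then s n n else 0)) * al^k =
      S n al - p * ((-1)^n * B n (-al)) - s n n * al^n := by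
    have h4 : ∑ k ∈ range (2*n+1), (if k = n then s n n else 0) * al^k = s n n * al^n := by
      rw [sum_eq_single n]
      · rw [if_pos rfl]
      · intro b _ hb; rw [if_neg hb, zero_mul]
      · intro h; exfalso; apply h; rw [mem_range]; omega
    rw [← h4]
    unfold S B
    rw [mul_sum, mul_sum, ← sum_sub_distrib, ← sum_sub_distrib]
    apply sum_congr rfl
    intro k _
    rw [neg_pow al]
    ring
  rw [h3] at h1
  have h5 := zmul (s_n1 hn h2) (pow_mem hal n)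
  have h6 := add_mem h1 h5
  convert h6 using 1
  ring

/-- the symmetric formula for `B` -/
lemma B_formula (hn : 2*n+1 = p) (h2 : 2 ≤ n) {x y : ℚ} (hx : x ∈ Z p) (hxy : x * y = 1) :
    p * B n x - x^n * (E n y - E n x) ∈ J p 2 := by
  have hB : B n x = ∑ j ∈ range n, (bq n (n-1-j) * x^(n-1-j) + bq n (n+1+j) * x^(n+1+j)) := by
    unfold B
    rw [show 2*n+1 = n + (1 + n) by ring, sum_range_add, sum_range_add, sum_range_one, ← sum_range_reflect, sum_add_distrib]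
    have : bq n (n+0) = 0 := by unfold bq; rw [if_pos (by omega)]
    rw [this, zero_mul, zero_add]
    congr 1
    apply sum_congr rfl
    intro j _
    rw [show n + (1+j) = n+1+j by ring]
  have hE : x^n * (E n y - E n x) = ∑ j ∈ range n, ((((2*n+1).choose (2*(j+1)) : ℕ) : ℚ) * x^(n-1-j) -
      (((2*n+1).choose (2*(j+1)) : ℕ) : ℚ) * x^(n+1+j)) := by
    unfold E
    rw [sum_range_succ', sum_range_succ' _ n, pow_zero, pow_zero, mul_sub, mul_add, mul_add, mul_sum, mul_sum,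
      add_sub_add_right_eq_sub, ← sum_sub_distrib]
    apply sum_congr rfl
    intro j hj
    rw [mem_range] at hj
    have e1 : x^n = x^(n-1-j) * x^(j+1) := by rw [← pow_add]; congr 1; omega
    have e2 : x^(j+1) * y^(j+1) = 1 := by rw [← mul_pow, hxy, one_pow]
    have e3 : x^(n+1+j) = x^n * x^(j+1) := by rw [← pow_add]; congr 1; omega
    rw [e3]
    linear_combination (((2*n+1).choose (2*(j+1)) : ℕ) : ℚ) * (y^(j+1) * e1 + x^(n-1-j) * e2)
  rw [hB, hE, mul_sum, ← sum_sub_distrib]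
  apply sum_mem
  intro j hj
  rw [mem_range] at hj
  have hc := ch_even hn j hj
  have hpc := pcast hn
  have hi := inv_mem' hn (show j + 1 ≤ 2*n by omega)
  have hh := half_mem hn h2
  have n1 : ((j:ℚ)+1) ≠ 0 := by positivity
  have hb1 : bq n (n-1-j) = 1/(p - 2*((j:ℚ)+1)) := by
    unfold bq
    rw [if_neg (by omega), Nat.cast_sub (by omega), Nat.cast_sub (by omega), ← hpc]
    push_cast
    congr 1; ring
  have hb2 : bq n (n+1+j) = 1/(p + 2*((j:ℚ)+1)) := by
    unfold bq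
    rw [if_neg (by omega), ← hpc]
    push_cast
    congr 1; ring
  have hb1m := bq_mem hn (by omega) (show n-1-j ≤ 2*n+1 by omega)
  have hb2m := bq_mem hn (by omega) (show n+1+j ≤ 2*n+1 by omega)
  have n2 : (p:ℚ) - 2*((j:ℚ)+1) ≠ 0 := by
    rw [← hpc]
    have : ((2*n+1:ℕ):ℤ) - 2*((j:ℤ)+1) ≠ 0 := by push_cast; omega
    intro h
    apply this
    push_cast at h ⊢
    exact_mod_cast h
  have n3 : (p:ℚ) + 2*((j:ℚ)+1) ≠ 0 := by positivity
  have k1 : p * bq n (n-1-j) - (((2*n+1).choose (2*(j+1)) : ℕ) : ℚ) ∈ J p 2 := by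
    have h3 : (p:ℚ)^2 * (bq n (n-1-j) * ((1/2) * (1/((j:ℚ)+1)))) ∈ J p 2 := ppow_mem 2 (mul_mem hb1m (mul_mem hh hi))
    have h4 := sub_mem h3 hc
    convert h4 using 1
    rw [hb1]
    field_simp
    ring
  have k2 : p * bq n (n+1+j) + (((2*n+1).choose (2*(j+1)) : ℕ) : ℚ) ∈ J p 2 := by
    have h3 : (p:ℚ)^2 * (bq n (n+1+j) * ((1/2) * (1/((j:ℚ)+1)))) ∈ J p 2 := ppow_mem 2 (mul_mem hb2m (mul_mem hh hi))
    have h4 := sub_mem hc h3
    convert h4 using 1
    rw [hb2]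
    field_simp
    ring
  have k3 := add_mem (J_mul_Z (pow_mem hx (n-1-j)) k1) (J_mul_Z (pow_mem hx (n+1+j)) k2)
  convert k3 using 1
  ring

lemma B_mem (hn : 2*n+1 = p) (h2 : 2 ≤ n) {x : ℚ} (hx : x ∈ Z p) : B n x ∈ Z p :=
  sum_mem fun k hk => mul_mem (bq_mem hn (by omega) (by rw [mem_range] at hk; omega)) (pow_mem hx k)

lemma B_one (hn : 2*n+1 = p) (h2 : 2 ≤ n) : B n 1 ∈ J p 1 := by
  have h := B_formula hn h2 (one_mem (Z p)) (show (1:ℚ)*1 = 1 by norm_num)
  rw [sub_self, mul_zero, sub_zero] at h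
  apply J_cancel (k := 1)
  rwa [pow_one]

lemma B_m1 (hn : 2*n+1 = p) (h2 : 2 ≤ n) : B n (-1) ∈ J p 1 := by
  have h := B_formula hn h2 (neg_mem (one_mem (Z p))) (show (-1:ℚ)*(-1) = 1 by norm_num)
  rw [sub_self, mul_zero, sub_zero] at h
  apply J_cancel (k := 1)
  rwa [pow_one]

/-- (2) -/
lemma S_one (hn : 2*n+1 = p) (h2 : 2 ≤ n) : S n 1 - 1 ∈ J p 2 := by
  have h := S_cong hn h2 (one_mem (Z p))
  have h3 := zmul (pJ2 (B_m1 hn h2)) (m1_mem (p := p) n)
  have := add_mem h h3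
  convert this using 1
  rw [one_pow]; ring

lemma E_m13_one (hn : 2*n+1 = p) (h2 : 2 ≤ n) : E n (-1/3) - 1 ∈ J p 1 := by
  unfold E
  rw [sum_range_succ', pow_zero, mul_zero, Nat.choose_zero_right, Nat.cast_one, mul_one, add_sub_cancel_right]
  apply sum_mem
  intro k hk
  rw [mem_range] at hk
  apply J_mul_Z
  · apply pow_mem
    rw [neg_div]
    exact neg_mem (third_mem hn h2)
  · rw [show 2*(k+1) = (2*k+1)+1 by ring]
    exact choose_J1 hn (by omega)

lemma mod3 (hn : 2*n+1 = p) (h2 : 2 ≤ n) : n % 3 ≠ 1 := by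
  intro h
  have h3 : 3 ∣ p := by omega
  have := (Nat.prime_dvd_prime_iff_eq Nat.prime_three hp.out).1 h3
  omega

lemma m3_eps (hn : 2*n+1 = p) (h2 : 2 ≤ n) : (-3:ℚ)^n - eps3 n ∈ J p 1 := by
  have h := E_m13 n (mod3 hn h2)
  have h1 := zmul (E_m13_one hn h2) (pow_mem (neg_mem (nat_mem (p := p) 3)) n)
  have ha := zmul (a_mem hn h2) (show eps3 n ∈ Z p by unfold eps3; split_ifs; exacts [one_mem _, neg_mem (one_mem _)])
  have h3 := sub_mem ha h1
  convert h3 using 1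
  push_cast
  linear_combination h

/-- (5) -/
lemma S_three (hn : 2*n+1 = p) (h2 : 2 ≤ n) : S n 3 - (-1)^n * eps3 n ∈ J p 2 := by
  have h := S_cong hn h2 (nat_mem (p := p) 3)
  have hb := B_formula hn h2 (neg_mem (nat_mem (p := p) 3)) (show (-((3:ℕ):ℚ))*(-1/3) = 1 by norm_num)
  have hE := E_m3 n (mod3 hn h2)
  have hE2 := E_m13 n (mod3 hn h2)
  have ha := a_mem hn h2
  have hm := m3_eps hn h2
  push_cast at h hb
  have h4 := zmul hb (m1_mem (p := p) n)
  have h5 := zmul (J1sq hm ha) (m1_mem (p := p) n)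
  have h6 := sub_mem (add_mem h h4) h5
  convert h6 using 1
  rw [hE]
  have e3 : (3:ℚ)^n = (-1)^n * (-3)^n := by rw [← mul_pow]; norm_num
  rw [e3]
  linear_combination (-1)^n * hE2

/-- (4) -/
lemma S_m4 (hn : 2*n+1 = p) (h2 : 2 ≤ n) : S n (-4) - (7 - 3 * 9^n)/4 * (-1)^n ∈ J p 2 := by
  have h := S_cong hn h2 (neg_mem (nat_mem (p := p) 4))
  have hb := B_formula hn h2 ((nat_mem (p := p) 4)) (show (((4:ℕ):ℚ))*(1/4) = 1 by norm_num)
  have hE := E_four n
  have hE2 := E_quarter n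
  have ha := a_mem hn h2
  have hbm := b_mem hn h2
  push_cast at h hb
  rw [neg_neg] at h
  have h4 := zmul hb (m1_mem (p := p) n)
  have h5 := zmul (J1sq ha hbm) (mul_mem (m1_mem (p := p) n) (mul_mem (nat_mem 3) (half_mem hn h2)))
  have h6 := sub_mem (add_mem h h4) h5
  convert h6 using 1
  have e3 : (-4:ℚ)^n = (-1)^n * 4^n := by rw [← mul_pow]; norm_num
  rw [e3]
  push_cast
  linear_combination (-1)^n * (1/4 * hE2 - 4^n/2 * hE)

end

end Pool.Agent.V11304.TB
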